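import Pool.Agent.Lib.MP_81308f_co.Opt

open scoped Pointwise BigOperators

namespace MP81308f

private theorem core_cone {n : ℕ} {K : Set (Fin n → ℝ)} (hK : Convex ℝ K) (hne : K.Nonempty)
    {E : Type*} (S : Finset E) (a b : E → Fin n → ℝ) (ha : ∀ e, a e ∈ K) (hb : ∀ e, b e ∈ K)
    (p r : E → ℝ) (hp : ∀ e, 0 ≤ p e) (hr : ∀ e, 0 ≤ r e) :
    ∑ e ∈ S, (p e • a e + r e • b e) ∈ (∑ e ∈ S, (p e + r e)) • K := by
  classical
  induction S using Finset.induction_on with
  | empty =>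
    simp only [Finset.sum_empty]
    rw [Set.zero_smul_set hne]
    exact Set.mem_zero.mpr rfl
  | insert e S he ih =>
    rw [Finset.sum_insert he, Finset.sum_insert he]
    rw [hK.add_smul (add_nonneg (hp e) (hr e))
      (Finset.sum_nonneg fun e _ => add_nonneg (hp e) (hr e)), hK.add_smul (hp e) (hr e)]
    exact Set.add_mem_add (Set.add_mem_add (Set.smul_mem_smul_set (ha e))
      (Set.smul_mem_smul_set (hb e))) ih

/-- (CORE) from the dual condition to the lattice point. -/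
theorem core {n : ℕ} (T : Finset (Fin n → ℝ)) (hT : T.Nonempty) (hTL : ∀ v ∈ T, v ∈ Lat n)
    {E : Type*} [Fintype E] (a b u : E → Fin n → ℝ) (k : E → ℝ) (l w : ℝ)
    (ha : ∀ e, a e ∈ T) (hb : ∀ e, b e ∈ T) (hu : ∀ e, u e ∈ Lat n) (hk : ∀ e, l ≤ k e)
    (hab : ∀ e, b e - a e = k e • u e) (hl : 0 < l) (hd : (dim T : ℝ) ≤ l)
    (hw : 1 + dim T / l < w) (c : Fin n → ℝ)
    (hc : c ∈ w • convexHull ℝ (T : Set (Fin n → ℝ)))
    (hdual : ∀ (f : (Fin n → ℝ) →ₗ[ℝ] ℝ) (β : ℝ), (∀ v ∈ T, 0 ≤ f v + β) →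
      (∃ v ∈ T, f v + β ≠ 0) → ∃ B : Fin (dim T) → E, LinearIndependent ℝ (fun i => u (B i)) ∧
        ∑ i, ((f (a (B i)) + β) + (f (b (B i)) + β)) < l * (f c + w * β)) :
    ∃ z ∈ Lat n, z ∈ convexHull ℝ (T : Set (Fin n → ℝ)) ∧
      c - z ∈ (w - 1) • convexHull ℝ (T : Set (Fin n → ℝ)) := by
  classical
  have hkpos : ∀ e, 0 < k e := fun e => lt_of_lt_of_le hl (hk e)
  set K : Set (Fin n → ℝ) := convexHull ℝ (T : Set (Fin n → ℝ)) with hKdef
  have hKc : Convex ℝ K := convex_convexHull ℝ _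
  have hTK : ∀ v ∈ T, v ∈ K := fun v hv => subset_convexHull ℝ _ hv
  have hKne : K.Nonempty := ⟨hT.choose, hTK _ hT.choose_spec⟩
  -- the vector span
  let U : Submodule ℝ (Fin n → ℝ) := vectorSpan ℝ (T : Set (Fin n → ℝ))
  have hUT : ∀ v ∈ T, ∀ v' ∈ T, v - v' ∈ U := fun v hv v' hv' =>
    vsub_mem_vectorSpan ℝ (Finset.mem_coe.mpr hv) (Finset.mem_coe.mpr hv')
  have huU : ∀ e, u e ∈ U := by
    intro e
    have h := hUT _ (hb e) _ (ha e)
    rw [hab e] at h
    have := U.smul_mem (k e)⁻¹ h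
    rwa [smul_smul, inv_mul_cancel₀ (hkpos e).ne', one_smul] at this
  have hKU : ∀ q ∈ K, ∀ v ∈ T, v - q ∈ U := by
    intro q hq v hv
    have h1 : q ∈ affineSpan ℝ (T : Set (Fin n → ℝ)) := convexHull_subset_affineSpan _ hq
    have h2 : v ∈ affineSpan ℝ (T : Set (Fin n → ℝ)) := subset_affineSpan ℝ _ hv
    have h3 := AffineSubspace.vsub_mem_direction h2 h1
    rwa [direction_affineSpan] at h3
  let bas : Module.Basis (Fin (dim T)) ℝ U := Module.finBasis ℝ U
  let ψ : (Fin (dim T) → ℝ) →ₗ[ℝ] (Fin n → ℝ) := U.subtype ∘ₗ bas.equivFun.symm.toLinearMap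
  have hψinj : Function.Injective ψ := by
    intro x y hxy
    exact bas.equivFun.symm.injective (Subtype.ext hxy)
  have hψU : ∀ x, ψ x ∈ U := fun x => (bas.equivFun.symm x).2
  have hψsurj : ∀ y ∈ U, ∃ x, ψ x = y := by
    intro y hy
    exact ⟨bas.equivFun ⟨y, hy⟩, by simp [ψ]⟩
  choose! pre hpre using hψsurj
  let v : E → Fin (dim T) → ℝ := fun e => pre (u e)
  have hv : ∀ e, ψ (v e) = u e := fun e => hpre _ (huU e)
  have hdet : ∀ B : Fin (dim T) → E, LinearIndependent ℝ (fun i => u (B i)) →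
      (Matrix.of fun i => v (B i)).det ≠ 0 := by
    intro B hB
    have h1 : LinearIndependent ℝ (fun i => v (B i)) := by
      refine LinearIndependent.of_comp ψ ?_
      convert hB using 1
      funext i
      exact hv (B i)
    have h2 : LinearIndependent ℝ (Matrix.of fun i => v (B i)).row := h1
    rw [Matrix.linearIndependent_rows_iff_isUnit] at h2
    exact (Matrix.isUnit_iff_isUnit_det _).mp h2 |>.ne_zero
  -- the point `c`
  obtain ⟨c₀, hc₀, hcc₀⟩ := Set.mem_smul_set.mp hc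
  obtain ⟨lam, hlam0, hlam1, hlamc⟩ := Finset.mem_convexHull'.mp hc₀
  have hcf : ∀ (f : (Fin n → ℝ) →ₗ[ℝ] ℝ) (β : ℝ),
      ∑ x ∈ T, (w * lam x) * (f x + β) = f c + w * β := by
    intro f β
    rw [← hcc₀, ← hlamc]
    simp only [map_smul, map_sum, smul_eq_mul, mul_add, Finset.sum_add_distrib]
    congr 1
    · rw [Finset.mul_sum]
      exact Finset.sum_congr rfl fun x _ => by ring
    · rw [← Finset.sum_mul, ← Finset.mul_sum, hlam1, mul_one]
  -- affine functions on `T`
  let ev : (((Fin n → ℝ) →ₗ[ℝ] ℝ) × ℝ) →ₗ[ℝ] ({x // x ∈ T} → ℝ) :=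
    { toFun := fun p x => p.1 x.1 + p.2
      map_add' := by
        intro p q
        funext x
        simp only [Prod.fst_add, Prod.snd_add, LinearMap.add_apply, Pi.add_apply]
        ring
      map_smul' := by
        intro r p
        funext x
        simp only [Prod.smul_fst, Prod.smul_snd, LinearMap.smul_apply, Pi.smul_apply,
          smul_eq_mul, RingHom.id_apply]
        ring }
  let F : Submodule ℝ ({x // x ∈ T} → ℝ) := LinearMap.range ev
  let α : E → F →ₗ[ℝ] ℝ := fun e => (1 / 2 : ℝ) •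
    ((LinearMap.proj (⟨a e, ha e⟩ : {x // x ∈ T}) : ({x // x ∈ T} → ℝ) →ₗ[ℝ] ℝ) ∘ₗ F.subtype +
    (LinearMap.proj (⟨b e, hb e⟩ : {x // x ∈ T}) : ({x // x ∈ T} → ℝ) →ₗ[ℝ] ℝ) ∘ₗ F.subtype)
  let L : F →ₗ[ℝ] ℝ := (l / 2) • ∑ x : {x // x ∈ T}, (w * lam x.1) •
    ((LinearMap.proj x : ({x // x ∈ T} → ℝ) →ₗ[ℝ] ℝ) ∘ₗ F.subtype)
  have hα : ∀ e (g : F), α e g = (g.1 ⟨a e, ha e⟩ + g.1 ⟨b e, hb e⟩) / 2 := by
    intro e g
    simp only [α, LinearMap.smul_apply, LinearMap.add_apply, LinearMap.comp_apply,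
      Submodule.subtype_apply, LinearMap.proj_apply, smul_eq_mul]
    ring
  have hL : ∀ g : F, L g = (l / 2) * ∑ x : {x // x ∈ T}, (w * lam x.1) * g.1 x := by
    intro g
    simp only [L, LinearMap.smul_apply, LinearMap.sum_apply, LinearMap.comp_apply,
      Submodule.subtype_apply, LinearMap.proj_apply, smul_eq_mul]
  have hLf : ∀ (g : F) (f : (Fin n → ℝ) →ₗ[ℝ] ℝ) (β : ℝ), ev (f, β) = g.1 →
      L g = (l / 2) * (f c + w * β) := by
    intro g f β hg
    rw [hL, ← hcf f β, ← Finset.sum_coe_sort T, ← hg]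
    rfl
  let C : Set F := {g | ∀ x, 0 ≤ g.1 x}
  have hCclosed : IsClosed C := by
    have : C = ⋂ x, {g : F | 0 ≤ g.1 x} := by
      ext g; simp [C]
    rw [this]
    exact isClosed_iInter fun x => isClosed_le continuous_const
      ((continuous_apply x).comp continuous_subtype_val)
  obtain ⟨aw, haw, hopt⟩ := opt v α L C hCclosed (fun x => le_rfl)
    (fun x hx y hy i => add_nonneg (hx i) (hy i))
    (fun t ht x hx i => mul_nonneg ht (hx i))
    (by
      obtain ⟨B, hB, -⟩ := hdual 0 1 (fun v _ => by simp)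
        ⟨hT.choose, hT.choose_spec, by simp⟩
      exact ⟨B, hdet B hB⟩)
    (by
      intro g hg hg0
      obtain ⟨⟨f, β⟩, hfβ⟩ := g.2
      have hval : ∀ (x : {x // x ∈ T}), g.1 x = f x.1 + β := by
        intro x
        rw [← hfβ]
        rfl
      have h1 : ∀ v ∈ T, 0 ≤ f v + β := by
        intro v hv
        rw [← hval ⟨v, hv⟩]
        exact hg _
      have h2 : ∃ v ∈ T, f v + β ≠ 0 := by
        by_contra hcon
        push Not at hcon
        refine hg0 (Subtype.ext (funext fun x => ?_))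
        rw [hval x, hcon x.1 x.2]
        rfl
      obtain ⟨B, hB, hlt⟩ := hdual f β h1 h2
      refine ⟨B, hdet B hB, ?_⟩
      rw [hLf g f β hfβ]
      have h3 : ∀ i, α (B i) g = ((f (a (B i)) + β) + (f (b (B i)) + β)) / 2 := by
        intro i
        rw [hα, hval, hval]
      simp only [h3]
      rw [← Finset.sum_div]
      linarith)
  -- the matrix and the leverage scores
  have hspan : ∃ B : Fin (dim T) → E, (Matrix.of fun i => v (B i)).det ≠ 0 := by
    obtain ⟨B, hB, -⟩ := hdual 0 1 (fun v _ => by simp) ⟨hT.choose, hT.choose_spec, by simp⟩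
    exact ⟨B, hdet B hB⟩
  have hApos := MA_posDef v aw haw hspan
  set A := MA v aw with hA
  let bb : E → ℝ := fun e => aw e * QF A (v e)
  have hQF0 : ∀ x, 0 ≤ QF A x := by
    intro x
    have h := hApos.inv.posSemidef.dotProduct_mulVec_nonneg x
    simpa [QF] using h
  have hbb0 : ∀ e, 0 ≤ bb e := fun e => mul_nonneg (haw e).le (hQF0 _)
  have hbbsum : ∑ e, bb e = dim T := by
    have h := trace_inv_mul_MA v aw A
    rw [← hA, Matrix.nonsing_inv_mul _ (by
      exact (Matrix.isUnit_iff_isUnit_det _).mp hApos.isUnit), Matrix.trace_one,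
      Fintype.card_fin] at h
    exact h.symm
  let m : E → Fin n → ℝ := fun e => (1 / 2 : ℝ) • (a e + b e)
  have hineq : ∀ (f : (Fin n → ℝ) →ₗ[ℝ] ℝ) (β : ℝ), (∀ x ∈ T, 0 ≤ f x + β) →
      ∑ e, bb e * (f (m e) + β) ≤ (l / 2) * (f c + w * β) := by
    intro f β hf
    let g : F := ⟨ev (f, β), LinearMap.mem_range_self _ _⟩
    have h := hopt g (fun x => hf x.1 x.2)
    rw [hLf g f β rfl] at h
    refine le_trans (le_of_eq ?_) h
    refine Finset.sum_congr rfl fun e _ => ?_
    rw [hα]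
    change bb e * (f (m e) + β) = bb e * (((f (a e) + β) + (f (b e) + β)) / 2)
    simp only [m, map_smul, map_add, smul_eq_mul]
    ring
  have hdl : (dim T : ℝ) / l ≤ 1 := (div_le_one hl).mpr hd
  have hρ : 0 < w - 2 * (dim T / l) := by linarith
  set ρ := w - 2 * ((dim T : ℝ) / l) with hρdef
  have hmK : ∀ e, m e ∈ K := by
    intro e
    have := hKc (hTK _ (ha e)) (hTK _ (hb e)) (show (0 : ℝ) ≤ 1 / 2 by norm_num)
      (show (0 : ℝ) ≤ 1 / 2 by norm_num) (by norm_num)
    simpa [m, smul_add] using this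
  obtain ⟨q, hρq⟩ : ∃ q : Fin n → ℝ, ρ • q = c - (2 / l) • ∑ e, bb e • m e :=
    ⟨ρ⁻¹ • (c - (2 / l) • ∑ e, bb e • m e), by rw [smul_smul, mul_inv_cancel₀ hρ.ne', one_smul]⟩
  have hqK : q ∈ K := by
    by_contra hq
    have hKcl : IsClosed K := (T.finite_toSet.isCompact_convexHull ℝ).isClosed
    obtain ⟨f, s, hfq, hfs⟩ := geometric_hahn_banach_point_closed hKc hKcl hq
    have h := hineq f.toLinearMap (-s) (fun x hx => by
      have := hfs x (hTK x hx)
      change 0 ≤ f x + -s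
      linarith)
    have h1 : f (ρ • q) = f c - (2 / l) * ∑ e, bb e * f (m e) := by
      rw [hρq]
      simp [map_sub, map_smul, map_sum, smul_eq_mul]
    have h2 : ∑ e, bb e * (f (m e) + -s) = ∑ e, bb e * f (m e) - s * dim T := by
      rw [← hbbsum, Finset.mul_sum, ← Finset.sum_sub_distrib]
      exact Finset.sum_congr rfl fun e _ => by ring
    change ∑ e, bb e * (f (m e) + -s) ≤ (l / 2) * (f c + w * -s) at h
    rw [h2] at h
    rw [map_smul, smul_eq_mul] at h1
    have h3 : (2 / l) * (∑ e, bb e * f (m e) - s * dim T) ≤ f c + w * -s := by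
      have := mul_le_mul_of_nonneg_left h (show 0 ≤ 2 / l by positivity)
      refine this.trans (le_of_eq ?_)
      field_simp
    have h4 : ρ * s ≤ ρ * f q := by
      rw [h1, hρdef]
      have : (2 / l) * (∑ e, bb e * f (m e) - s * dim T) =
        (2 / l) * ∑ e, bb e * f (m e) - 2 * (dim T / l) * s := by ring
      linarith
    have h5 := le_of_mul_le_mul_left h4 hρ
    linarith
  -- the lattice point
  obtain ⟨y, hy⟩ : ∃ y : Fin n → ℝ, y = (1 / l) • ∑ e, bb e • m e + (1 - dim T / l) • q :=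
    ⟨_, rfl⟩
  have hne : ∃ x, y + ψ x ∈ Lat n := by
    obtain ⟨v₀, hv₀⟩ := hT
    have h1 : v₀ - y ∈ U := by
      have h2 : v₀ - y = (1 / l) • ∑ e, bb e • (v₀ - m e) + (1 - dim T / l) • (v₀ - q) := by
        have h3 : ∑ e, bb e • (v₀ - m e) = (dim T : ℝ) • v₀ - ∑ e, bb e • m e := by
          simp only [smul_sub, Finset.sum_sub_distrib, ← Finset.sum_smul, hbbsum]
        rw [h3, hy]
        module
      rw [h2]
      refine U.add_mem (U.smul_mem _ (U.sum_mem fun e _ => U.smul_mem _ (hKU _ (hmK e) _ hv₀)))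
        (U.smul_mem _ (hKU _ hqK _ hv₀))
    refine ⟨pre (v₀ - y), ?_⟩
    rw [hpre _ h1, add_sub_cancel]
    exact hTL _ hv₀
  obtain ⟨x, hxL, hxmin⟩ := near A hApos ψ y hne
  obtain ⟨t, hxt, ht⟩ := voronoi v aw haw hspan x (fun e => by
    refine ⟨hxmin _ ?_, hxmin _ ?_⟩
    · rw [map_add, ← add_assoc, hv]
      exact (Lat n).add_mem hxL (hu e)
    · rw [map_sub, ← add_sub_assoc, hv]
      exact (Lat n).sub_mem hxL (hu e))
  have htb : ∀ e, |t e / k e| ≤ bb e / (2 * l) := by
    intro e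
    rw [abs_div, abs_of_pos (hkpos e)]
    calc |t e| / k e ≤ (bb e / 2) / k e := div_le_div_of_nonneg_right (ht e) (hkpos e).le
      _ ≤ (bb e / 2) / l := div_le_div_of_nonneg_left (by have := hbb0 e; positivity) hl (hk e)
      _ = bb e / (2 * l) := by ring
  have hψx : ψ x = ∑ e, (t e / k e) • (b e - a e) := by
    rw [hxt, map_sum]
    refine Finset.sum_congr rfl fun e _ => ?_
    rw [map_smul, hv, hab, smul_smul, div_mul_cancel₀ _ (hkpos e).ne']
  have hp : ∀ e, 0 ≤ bb e / (2 * l) - t e / k e := fun e => by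
    have := (abs_le.mp (htb e)).2
    linarith
  have hr : ∀ e, 0 ≤ bb e / (2 * l) + t e / k e := fun e => by
    have := (abs_le.mp (htb e)).1
    linarith
  have hw1 : ∑ e, ((bb e / (2 * l) - t e / k e) + (bb e / (2 * l) + t e / k e)) =
      dim T / l := by
    rw [← hbbsum, Finset.sum_div]
    refine Finset.sum_congr rfl fun e _ => ?_
    field_simp
    ring
  have hw2 : ∑ e, ((bb e / (2 * l) + t e / k e) + (bb e / (2 * l) - t e / k e)) =
      dim T / l := by
    rw [← hw1]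
    exact Finset.sum_congr rfl fun e _ => by ring
  have h1 := core_cone hKc hKne Finset.univ a b (fun e => hTK _ (ha e)) (fun e => hTK _ (hb e))
    _ _ hp hr
  have h2 := core_cone hKc hKne Finset.univ a b (fun e => hTK _ (ha e)) (fun e => hTK _ (hb e))
    _ _ hr hp
  rw [hw1] at h1
  rw [hw2] at h2
  have hd0 : (0 : ℝ) ≤ dim T / l := by positivity
  have hz : y + ψ x = (1 - dim T / l) • q +
      ∑ e, ((bb e / (2 * l) - t e / k e) • a e + (bb e / (2 * l) + t e / k e) • b e) := by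
    rw [hy, hψx, Finset.smul_sum, add_right_comm, ← Finset.sum_add_distrib, add_comm]
    congr 1
    refine Finset.sum_congr rfl fun e _ => ?_
    simp only [m]
    match_scalars <;> field_simp <;> ring
  refine ⟨y + ψ x, hxL, ?_, ?_⟩
  · rw [hz]
    have h3 : (1 - dim T / l) • q +
      ∑ e, ((bb e / (2 * l) - t e / k e) • a e + (bb e / (2 * l) + t e / k e) • b e) ∈
      ((1 - (dim T : ℝ) / l) + dim T / l) • K := by
      rw [hKc.add_smul (by linarith) hd0]
      exact Set.add_mem_add (Set.smul_mem_smul_set hqK) h1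
    rwa [sub_add_cancel, one_smul] at h3
  · have h4 : c - (y + ψ x) = (w - 1 - dim T / l) • q +
      ∑ e, ((bb e / (2 * l) + t e / k e) • a e + (bb e / (2 * l) - t e / k e) • b e) := by
      have h5 : c = ρ • q + (2 / l) • ∑ e, bb e • m e := by rw [hρq]; abel
      have h6 : (2 / l) • ∑ e, bb e • m e =
        ∑ e, ((bb e / (2 * l) + t e / k e) • a e + (bb e / (2 * l) - t e / k e) • b e) +
        ∑ e, ((bb e / (2 * l) - t e / k e) • a e + (bb e / (2 * l) + t e / k e) • b e) := by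
        rw [Finset.smul_sum, ← Finset.sum_add_distrib]
        refine Finset.sum_congr rfl fun e _ => ?_
        simp only [m]
        match_scalars <;> field_simp <;> ring
      rw [hz, h5, h6, hρdef]
      module
    rw [h4]
    have h3 : (w - 1 - dim T / l) • q +
      ∑ e, ((bb e / (2 * l) + t e / k e) • a e + (bb e / (2 * l) - t e / k e) • b e) ∈
      ((w - 1 - (dim T : ℝ) / l) + dim T / l) • K := by
      rw [hKc.add_smul (by linarith) hd0]
      exact Set.add_mem_add (Set.smul_mem_smul_set hqK) h2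
    rwa [sub_add_cancel] at h3

end MP81308f
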