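import Mathlib

/-!
# MP_81308f_co : common definitions
-/

open scoped Pointwise BigOperators

namespace MP81308f

/-- The integer lattice in `Fin n → ℝ`. -/
def Lat (n : ℕ) : AddSubgroup (Fin n → ℝ) where
  carrier := {x | ∀ i, ∃ k : ℤ, x i = (k : ℝ)}
  zero_mem' := fun _ => ⟨0, by simp⟩
  add_mem' := by
    intro a b ha hb i
    obtain ⟨k, hk⟩ := ha i
    obtain ⟨m, hm⟩ := hb i
    exact ⟨k + m, by simp [hk, hm]⟩
  neg_mem' := by
    intro a ha i
    obtain ⟨k, hk⟩ := ha i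
    exact ⟨-k, by simp [hk]⟩

/-- Dimension of (the affine span of) a finite point set. -/
noncomputable def dim {n : ℕ} (T : Finset (Fin n → ℝ)) : ℕ :=
  Module.finrank ℝ (vectorSpan ℝ (T : Set (Fin n → ℝ)))

/-- `[a,b]` is an edge (a nondegenerate segment which is an extreme subset) of `conv T`. -/
def IsEdge {n : ℕ} (T : Finset (Fin n → ℝ)) (a b : Fin n → ℝ) : Prop :=
  a ≠ b ∧ IsExtreme ℝ (convexHull ℝ (T : Set (Fin n → ℝ))) (segment ℝ a b)

/-- Every edge of `conv T` with end points in `T` is a multiple `k ≥ l` of a lattice vector. -/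
def LongEdges {n : ℕ} (l : ℝ) (T : Finset (Fin n → ℝ)) : Prop :=
  ∀ a ∈ T, ∀ b ∈ T, IsEdge T a b → ∃ k : ℝ, l ≤ k ∧ ∃ u ∈ Lat n, b - a = k • u

/-- `T'` spans a face (an extreme subset) of `conv T`. -/
def IsFace {n : ℕ} (T T' : Finset (Fin n → ℝ)) : Prop :=
  T' ⊆ T ∧ T'.Nonempty ∧
    IsExtreme ℝ (convexHull ℝ (T : Set (Fin n → ℝ))) (convexHull ℝ (T' : Set (Fin n → ℝ)))

/-- The matrix `∑ a_e v_e v_eᵀ`. -/
noncomputable def MA {E : Type*} [Fintype E] {d : ℕ} (v : E → Fin d → ℝ) (a : E → ℝ) :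
    Matrix (Fin d) (Fin d) ℝ :=
  ∑ e, a e • Matrix.vecMulVec (v e) (v e)

/-- The quadratic form of the inverse matrix. -/
noncomputable def QF {d : ℕ} (A : Matrix (Fin d) (Fin d) ℝ) (x : Fin d → ℝ) : ℝ :=
  x ⬝ᵥ (A⁻¹.mulVec x)

end MP81308f
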