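import Pool.Agent.Lib.MP_81308f_co.Defs

open scoped Pointwise BigOperators

namespace MP81308f

/-- The set of points of `K` that occur with positive weight in a representation of `q`. -/
def faceSet {n : ℕ} (K : Set (Fin n → ℝ)) (q : Fin n → ℝ) : Set (Fin n → ℝ) :=
  {p | p ∈ K ∧ ∃ δ : ℝ, 0 < δ ∧ δ ≤ 1 ∧ ∃ y ∈ K, q = δ • p + (1 - δ) • y}

theorem face_extreme {n : ℕ} (K : Set (Fin n → ℝ)) (hK : Convex ℝ K) (q : Fin n → ℝ) :
    IsExtreme ℝ K (faceSet K q) := by
  refine ⟨fun p hp => hp.1, ?_⟩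
  rintro x₁ hx₁ x₂ hx₂ p ⟨hpK, δ, hδ0, hδ1, y, hy, hq⟩ hp
  obtain ⟨s, t, hs, ht, hst, rfl⟩ := hp
  refine ⟨hx₁, δ * s, by positivity, by nlinarith, ?_⟩
  have hlt : δ * s < 1 := by nlinarith
  have h1 : 0 < 1 - δ * s := by linarith
  refine ⟨(δ * t / (1 - δ * s)) • x₂ + ((1 - δ) / (1 - δ * s)) • y, ?_, ?_⟩
  · refine hK hx₂ hy (by positivity) (div_nonneg (by linarith) h1.le) ?_
    rw [← add_div, div_eq_one_iff_eq h1.ne']
    have : s = 1 - t := by linarith
    rw [this]; ring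
  · rw [hq]
    rw [smul_add, smul_smul, smul_smul, smul_add, smul_smul, smul_smul,
      mul_div_cancel₀ _ h1.ne', mul_div_cancel₀ _ h1.ne', add_assoc]

theorem face_convex {n : ℕ} (K : Set (Fin n → ℝ)) (hK : Convex ℝ K) (q : Fin n → ℝ) :
    Convex ℝ (faceSet K q) := by
  rintro p₁ ⟨hp₁, δ₁, h10, h11, y₁, hy₁, hq₁⟩ p₂ ⟨hp₂, δ₂, h20, h21, y₂, hy₂, hq₂⟩ s t hs ht hst
  refine ⟨hK hp₁ hp₂ hs ht hst, ?_⟩
  -- `m₁ = s δ₂ / D`, `m₂ = t δ₁ / D`, `D = s δ₂ + t δ₁`
  have hD : 0 < s * δ₂ + t * δ₁ := by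
    rcases eq_or_lt_of_le hs with h | h
    · have : t = 1 := by linarith
      rw [← h, this]; linarith
    · have : 0 ≤ t * δ₁ := by positivity
      have : 0 < s * δ₂ := by positivity
      linarith
  set D := s * δ₂ + t * δ₁ with hDdef
  have hsum : s * δ₂ / D + t * δ₁ / D = 1 := by
    rw [← add_div, div_self hD.ne']
  have hδ : δ₁ * δ₂ / D ≤ 1 := by
    rw [div_le_one hD, hDdef]
    have e1 : δ₁ * δ₂ = s * (δ₁ * δ₂) + t * (δ₁ * δ₂) := by rw [← add_mul, hst, one_mul]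
    have e2 : s * (δ₁ * δ₂) ≤ s * δ₂ := mul_le_mul_of_nonneg_left (by nlinarith) hs
    have e3 : t * (δ₁ * δ₂) ≤ t * δ₁ := mul_le_mul_of_nonneg_left (by nlinarith) ht
    linarith
  have hq : q = (s * δ₂ / D) • q + (t * δ₁ / D) • q := by
    rw [← add_smul, hsum, one_smul]
  rcases eq_or_lt_of_le hδ with h1 | h1
  · -- all of the weight is used: then `δ₁ = δ₂ = 1` on the support; use the point itself
    refine ⟨1, one_pos, le_rfl, s • p₁ + t • p₂, hK hp₁ hp₂ hs ht hst, ?_⟩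
    rw [div_eq_one_iff_eq hD.ne', hDdef] at h1
    have e1 : δ₁ * δ₂ = s * (δ₁ * δ₂) + t * (δ₁ * δ₂) := by rw [← add_mul, hst, one_mul]
    have e2 : 0 ≤ s * (δ₂ * (1 - δ₁)) := mul_nonneg hs (mul_nonneg h20.le (by linarith))
    have e3 : 0 ≤ t * (δ₁ * (1 - δ₂)) := mul_nonneg ht (mul_nonneg h10.le (by linarith))
    have e4 : s * (δ₂ * (1 - δ₁)) + t * (δ₁ * (1 - δ₂)) = 0 := by nlinarith
    have e5 : s * (δ₂ * (1 - δ₁)) = 0 := by linarith
    have e6 : t * (δ₁ * (1 - δ₂)) = 0 := by linarith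
    have f1 : s • q = s • p₁ := by
      rcases mul_eq_zero.1 e5 with h | h
      · rw [h, zero_smul, zero_smul]
      · rcases mul_eq_zero.1 h with h' | h'
        · exact absurd h' h20.ne'
        · have : δ₁ = 1 := by linarith
          rw [hq₁, this]; simp
    have f2 : t • q = t • p₂ := by
      rcases mul_eq_zero.1 e6 with h | h
      · rw [h, zero_smul, zero_smul]
      · rcases mul_eq_zero.1 h with h' | h'
        · exact absurd h' h10.ne'
        · have : δ₂ = 1 := by linarith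
          rw [hq₂, this]; simp
    rw [sub_self, zero_smul, add_zero, one_smul, ← f1, ← f2, ← add_smul, hst, one_smul]
  · have h2 : 0 < 1 - δ₁ * δ₂ / D := by linarith
    refine ⟨δ₁ * δ₂ / D, by positivity, hδ,
      (s * δ₂ / D * (1 - δ₁) / (1 - δ₁ * δ₂ / D)) • y₁ +
        (t * δ₁ / D * (1 - δ₂) / (1 - δ₁ * δ₂ / D)) • y₂, ?_, ?_⟩
    · refine hK hy₁ hy₂ ?_ ?_ ?_
      · exact div_nonneg (mul_nonneg (by positivity) (by linarith)) h2.le
      · exact div_nonneg (mul_nonneg (by positivity) (by linarith)) h2.le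
      · rw [← add_div, div_eq_one_iff_eq h2.ne']
        have e1 : δ₁ * δ₂ / D = (s * δ₂ / D) * δ₁ + (t * δ₁ / D) * δ₂ := by
          have : δ₁ * δ₂ = s * (δ₁ * δ₂) + t * (δ₁ * δ₂) := by rw [← add_mul, hst, one_mul]
          rw [this]; ring
        rw [e1]
        linear_combination hsum
    · have g1 : (1 - δ₁ * δ₂ / D) • ((s * δ₂ / D * (1 - δ₁) / (1 - δ₁ * δ₂ / D)) • y₁ +
        (t * δ₁ / D * (1 - δ₂) / (1 - δ₁ * δ₂ / D)) • y₂) =
          (s * δ₂ / D * (1 - δ₁)) • y₁ + (t * δ₁ / D * (1 - δ₂)) • y₂ := by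
        rw [smul_add, smul_smul, smul_smul, mul_div_cancel₀ _ h2.ne', mul_div_cancel₀ _ h2.ne']
      rw [g1]
      calc q = (s * δ₂ / D) • (δ₁ • p₁ + (1 - δ₁) • y₁) +
            (t * δ₁ / D) • (δ₂ • p₂ + (1 - δ₂) • y₂) := by
            rw [← hq₁, ← hq₂]; exact hq
        _ = _ := by
            funext i
            simp only [Pi.add_apply, Pi.smul_apply, smul_eq_mul]
            ring

/-- (FACE) the minimal face of a point. -/
theorem face_of_point {n : ℕ} (T : Finset (Fin n → ℝ)) (q : Fin n → ℝ)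
    (hq : q ∈ convexHull ℝ (T : Set (Fin n → ℝ))) :
    ∃ T', IsFace T T' ∧ q ∈ convexHull ℝ (T' : Set (Fin n → ℝ)) ∧
      ∀ p ∈ convexHull ℝ (T' : Set (Fin n → ℝ)), ∃ δ : ℝ, 0 < δ ∧ δ ≤ 1 ∧
        ∃ y ∈ convexHull ℝ (T : Set (Fin n → ℝ)), q = δ • p + (1 - δ) • y := by
  classical
  set K := convexHull ℝ (T : Set (Fin n → ℝ)) with hKdef
  have hK : Convex ℝ K := convex_convexHull ℝ _
  have hE : IsExtreme ℝ K (faceSet K q) := face_extreme K hK q
  set T' := T.filter (fun v => v ∈ faceSet K q) with hT'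
  have hsub : convexHull ℝ (T' : Set (Fin n → ℝ)) ⊆ faceSet K q :=
    convexHull_min (fun v hv => (Finset.mem_filter.1 (Finset.mem_coe.1 hv)).2)
      (face_convex K hK q)
  have hsup : faceSet K q ⊆ convexHull ℝ (T' : Set (Fin n → ℝ)) := by
    intro p hp
    have hpK : p ∈ K := hp.1
    rw [hKdef, Finset.mem_convexHull'] at hpK
    obtain ⟨w, hw0, hw1, hwp⟩ := hpK
    have hmem : ∀ v ∈ T, w v ≠ 0 → v ∈ faceSet K q := by
      intro v hv hwv
      have hwpos : 0 < w v := lt_of_le_of_ne (hw0 v hv) (Ne.symm hwv)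
      have hsumE : w v + ∑ u ∈ T.erase v, w u = 1 := by
        rw [Finset.add_sum_erase _ _ hv]; exact hw1
      have hvecE : w v • v + ∑ u ∈ T.erase v, w u • u = p := by
        rw [Finset.add_sum_erase _ (fun u => w u • u) hv]; exact hwp
      have hE0 : 0 ≤ ∑ u ∈ T.erase v, w u :=
        Finset.sum_nonneg fun u hu => hw0 u (Finset.mem_of_mem_erase hu)
      rcases eq_or_lt_of_le hE0 with h0 | h0
      · have hall : ∀ u ∈ T.erase v, w u = 0 := by
          intro u hu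
          exact (Finset.sum_eq_zero_iff_of_nonneg
            (fun u hu => hw0 u (Finset.mem_of_mem_erase hu))).1 h0.symm u hu
        have h1 : w v = 1 := by linarith
        have h2 : ∑ u ∈ T.erase v, w u • u = 0 :=
          Finset.sum_eq_zero fun u hu => by rw [hall u hu, zero_smul]
        rw [h1, h2, one_smul, add_zero] at hvecE
        rw [hvecE]; exact hp
      · have hp' : (∑ u ∈ T.erase v, w u)⁻¹ • (∑ u ∈ T.erase v, w u • u) ∈ K := by
          rw [Finset.smul_sum]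
          have : ∀ u ∈ T.erase v, (∑ u ∈ T.erase v, w u)⁻¹ • w u • u =
              ((∑ u ∈ T.erase v, w u)⁻¹ * w u) • u := fun u _ => smul_smul _ _ _
          rw [Finset.sum_congr rfl this]
          refine hK.sum_mem ?_ ?_ ?_
          · intro u hu
            exact mul_nonneg (inv_nonneg.2 h0.le) (hw0 u (Finset.mem_of_mem_erase hu))
          · rw [← Finset.mul_sum, inv_mul_cancel₀ h0.ne']
          · intro u hu
            exact subset_convexHull ℝ _ (Finset.mem_coe.2 (Finset.mem_of_mem_erase hu))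
        refine hE.2 (subset_convexHull ℝ _ (Finset.mem_coe.2 hv)) hp' hp ?_
        refine ⟨w v, ∑ u ∈ T.erase v, w u, hwpos, h0, hsumE, ?_⟩
        rw [smul_smul, mul_inv_cancel₀ h0.ne', one_smul]
        exact hvecE
    rw [Finset.mem_convexHull']
    refine ⟨w, fun y hy => hw0 y (Finset.mem_of_mem_filter y hy), ?_, ?_⟩
    · rw [← hw1, hT']
      refine Finset.sum_subset (Finset.filter_subset _ _) ?_
      intro v hv hv'
      by_contra hne
      exact hv' (Finset.mem_filter.2 ⟨hv, hmem v hv hne⟩)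
    · rw [← hwp, hT']
      refine Finset.sum_subset (Finset.filter_subset _ _) ?_
      intro v hv hv'
      have : w v = 0 := by
        by_contra hne
        exact hv' (Finset.mem_filter.2 ⟨hv, hmem v hv hne⟩)
      rw [this, zero_smul]
  have heq : convexHull ℝ (T' : Set (Fin n → ℝ)) = faceSet K q := Set.Subset.antisymm hsub hsup
  have hqF : q ∈ faceSet K q := ⟨hq, 1, one_pos, le_rfl, q, hq, by simp⟩
  refine ⟨T', ⟨Finset.filter_subset _ _, ?_, ?_⟩, ?_, ?_⟩
  · have : (convexHull ℝ (T' : Set (Fin n → ℝ))).Nonempty := ⟨q, by rw [heq]; exact hqF⟩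
    exact Finset.coe_nonempty.1 (convexHull_nonempty_iff.1 this)
  · rw [heq]; exact hE
  · rw [heq]; exact hqF
  · intro p hp
    rw [heq] at hp
    exact hp.2

end MP81308f
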