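import Mathlib

/-!
# MP_81308f_co : definitions used in the final statement
-/

open scoped Pointwise

namespace MP81308f

/-- The lattice `ℤ^n` in `ℝ^n`. -/
def latticePts (n : ℕ) : Set (Fin n → ℝ) := {x | ∀ i, ∃ k : ℤ, x i = (k : ℝ)}

/-- A lattice polytope: the convex hull of a nonempty finite set of lattice points. -/
def IsLatticePolytope {n : ℕ} (P : Set (Fin n → ℝ)) : Prop :=
  ∃ S : Finset (Fin n → ℝ), S.Nonempty ∧ (∀ v ∈ S, v ∈ latticePts n) ∧
    P = convexHull ℝ (S : Set (Fin n → ℝ))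

/-- An edge of `P`: a one-dimensional face, i.e. a segment with two different end points which is
an extreme subset (a face) of `P`. -/
def IsEdgeOf {n : ℕ} (P e : Set (Fin n → ℝ)) : Prop :=
  ∃ a b : Fin n → ℝ, a ≠ b ∧ e = segment ℝ a b ∧ IsExtreme ℝ P e

/-- The lattice length `L(P)`: the minimum over all edges `e` of `#(e ∩ M) - 1`. -/
noncomputable def latticeLength {n : ℕ} (P : Set (Fin n → ℝ)) : ℕ :=
  sInf {k : ℕ | ∃ e, IsEdgeOf P e ∧ k = (e ∩ latticePts n).ncard - 1}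

/-- `P` is integrally closed: `(P ∩ M) + (rP ∩ M) = (r+1)P ∩ M` for all integers `r ≥ 1`. -/
def IsIntegrallyClosed {n : ℕ} (P : Set (Fin n → ℝ)) : Prop :=
  ∀ r : ℕ, 1 ≤ r →
    (P ∩ latticePts n) + ((r : ℝ) • P ∩ latticePts n) = ((r : ℝ) + 1) • P ∩ latticePts n

end MP81308f
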