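import Pool.Agent.Lib.MP_81308f_co.Defs

open scoped Pointwise BigOperators

namespace MP81308f

/-- (SEG) a lattice segment with at least `N+1` lattice points is `k ≥ N` times a lattice vector. -/
theorem seg_long {n : ℕ} (a b : Fin n → ℝ) (ha : a ∈ Lat n) (hb : b ∈ Lat n) (hab : a ≠ b)
    (N : ℕ) (h : N + 1 ≤ (segment ℝ a b ∩ (Lat n : Set (Fin n → ℝ))).ncard) :
    ∃ k : ℝ, (N : ℝ) ≤ k ∧ ∃ u ∈ Lat n, b - a = k • u := by
  classical
  have hba : b - a ∈ Lat n := (Lat n).sub_mem hb ha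
  choose z hz using hba
  have hne : (Finset.univ : Finset (Fin n)).Nonempty := by
    by_contra hc
    rw [Finset.not_nonempty_iff_eq_empty, Finset.univ_eq_empty_iff] at hc
    exact hab (Subsingleton.elim _ _)
  obtain ⟨u, hu, hu1⟩ := Finset.extract_gcd z hne
  obtain ⟨c, hc⟩ := Finset.gcd_eq_sum_mul Finset.univ u
  rw [hu1] at hc
  set g : ℤ := Finset.univ.gcd z with hg
  have hg0 : 0 ≤ g := Int.nonneg_of_normalize_eq_self Finset.normalize_gcd
  have hgne : g ≠ 0 := by
    intro h0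
    apply hab
    have : b - a = 0 := by
      funext i
      rw [hz i, hu i (Finset.mem_univ i), h0]
      simp
    exact (sub_eq_zero.1 this).symm
  have hgpos : 0 < g := lt_of_le_of_ne hg0 (Ne.symm hgne)
  have hgR : (0 : ℝ) < (g : ℝ) := by exact_mod_cast hgpos
  have hcR : (1 : ℝ) = ∑ i, (u i : ℝ) * (c i : ℝ) := by exact_mod_cast hc
  have hsub : segment ℝ a b ∩ (Lat n : Set (Fin n → ℝ)) ⊆
      (((Finset.range (g.toNat + 1)).image
        (fun m : ℕ => a + ((m : ℝ) / (g : ℝ)) • (b - a)) : Finset (Fin n → ℝ)) :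
        Set (Fin n → ℝ)) := by
    rintro x ⟨hx, hxL⟩
    rw [segment_eq_image'] at hx
    obtain ⟨s, ⟨hs0, hs1⟩, rfl⟩ := hx
    have hxa : (a + s • (b - a)) - a ∈ Lat n := (Lat n).sub_mem hxL ha
    choose m hm using hxa
    have hkm : ∀ i, s * ((g : ℝ) * (u i : ℝ)) = (m i : ℝ) := by
      intro i
      have h1 := hm i
      have h2 : (a + s • (b - a) - a) i = s * (b - a) i := by
        simp
      rw [h2, hz i, hu i (Finset.mem_univ i)] at h1
      push_cast at h1
      exact h1
    have hk : ((∑ i, m i * c i : ℤ) : ℝ) = s * (g : ℝ) := by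
      push_cast
      calc ∑ i, (m i : ℝ) * (c i : ℝ) = ∑ i, (s * (g : ℝ)) * ((u i : ℝ) * (c i : ℝ)) := by
            refine Finset.sum_congr rfl fun i _ => ?_
            rw [← hkm i]; ring
        _ = s * (g : ℝ) := by rw [← Finset.mul_sum, ← hcR, mul_one]
    set k : ℤ := ∑ i, m i * c i with hkdef
    have hk0 : 0 ≤ k := by
      have : (0 : ℝ) ≤ (k : ℝ) := by rw [hk]; positivity
      exact_mod_cast this
    have hkg : k ≤ g := by
      have : (k : ℝ) ≤ (g : ℝ) := by
        rw [hk]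
        nlinarith
      exact_mod_cast this
    rw [Finset.mem_coe, Finset.mem_image]
    refine ⟨k.toNat, ?_, ?_⟩
    · rw [Finset.mem_range]
      omega
    · have h3 : ((k.toNat : ℕ) : ℝ) = (k : ℝ) := by
        have : ((k.toNat : ℕ) : ℤ) = k := Int.toNat_of_nonneg hk0
        exact_mod_cast congrArg (fun t : ℤ => (t : ℝ)) this
      have h4 : ((k.toNat : ℕ) : ℝ) / (g : ℝ) = s := by
        rw [h3, hk]
        field_simp
      simp only [h4]
  have hcard : (segment ℝ a b ∩ (Lat n : Set (Fin n → ℝ))).ncard ≤ g.toNat + 1 := by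
    calc (segment ℝ a b ∩ (Lat n : Set (Fin n → ℝ))).ncard
        ≤ (((Finset.range (g.toNat + 1)).image
        (fun m : ℕ => a + ((m : ℝ) / (g : ℝ)) • (b - a)) : Finset (Fin n → ℝ)) :
        Set (Fin n → ℝ)).ncard := Set.ncard_le_ncard hsub (Finset.finite_toSet _)
      _ ≤ g.toNat + 1 := by
        rw [Set.ncard_coe_finset]
        exact Finset.card_image_le.trans (by simp)
  refine ⟨(g : ℝ), ?_, fun i => (u i : ℝ), fun i => ⟨u i, rfl⟩, ?_⟩
  · have h5 : (N : ℤ) ≤ g := by omega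
    exact_mod_cast h5
  · funext i
    rw [hz i, hu i (Finset.mem_univ i)]
    simp

end MP81308f
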