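import Pool.Agent.Lib.MP_81308f_co.Ind
import Pool.Agent.Lib.MP_81308f_co.Seg
import Pool.Agent.Lib.MP_81308f_co.FinalDefs

open scoped Pointwise BigOperators

namespace MP81308f

theorem mem_latticePts_iff {n : ℕ} (x : Fin n → ℝ) : x ∈ latticePts n ↔ x ∈ Lat n := Iff.rfl

/-- A lattice polytope all of whose edges have lattice length at least `n`. -/
theorem final_longEdges {n : ℕ} (S : Finset (Fin n → ℝ)) (hS : ∀ v ∈ S, v ∈ latticePts n)
    (hL : n ≤ latticeLength (convexHull ℝ (S : Set (Fin n → ℝ)))) :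
    LongEdges (max (n : ℝ) 1) S := by
  intro a ha b hb hab
  rcases Nat.eq_zero_or_pos n with h0 | hpos
  · subst h0
    exact absurd (Subsingleton.elim a b) hab.1
  have hn1 : (1 : ℝ) ≤ n := by exact_mod_cast hpos
  rw [max_eq_left hn1]
  have h1 : latticeLength (convexHull ℝ (S : Set (Fin n → ℝ))) ≤
      (segment ℝ a b ∩ latticePts n).ncard - 1 :=
    Nat.sInf_le ⟨segment ℝ a b, ⟨a, b, hab.1, rfl, hab.2⟩, rfl⟩
  have h2 : n + 1 ≤ (segment ℝ a b ∩ (Lat n : Set (Fin n → ℝ))).ncard := by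
    have h3 : (segment ℝ a b ∩ latticePts n) = (segment ℝ a b ∩ (Lat n : Set (Fin n → ℝ))) := rfl
    rw [h3] at h1
    omega
  exact seg_long a b (hS a ha) (hS b hb) hab.1 n h2

theorem final {n : ℕ} (P : Set (Fin n → ℝ)) (hP : IsLatticePolytope P)
    (hL : n ≤ latticeLength P) : IsIntegrallyClosed P := by
  obtain ⟨S, hSne, hS, rfl⟩ := hP
  set P := convexHull ℝ (S : Set (Fin n → ℝ)) with hPdef
  have hconv : Convex ℝ P := convex_convexHull ℝ _
  intro r hr
  have hr1 : (1 : ℝ) ≤ r := by exact_mod_cast hr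
  apply Set.Subset.antisymm
  · rintro _ ⟨x, ⟨hx, hxL⟩, y, ⟨hy, hyL⟩, rfl⟩
    refine ⟨?_, (Lat n).add_mem hxL hyL⟩
    rw [add_comm (r : ℝ) 1, hconv.add_smul (by norm_num) (by linarith), one_smul]
    exact Set.add_mem_add hx hy
  · rintro c ⟨hc, hcL⟩
    obtain ⟨x, hx, rfl⟩ := hc
    have hdn : (dim S : ℝ) ≤ n := by
      have : dim S ≤ n := by
        unfold dim
        have := Submodule.finrank_le (vectorSpan ℝ (S : Set (Fin n → ℝ)))
        simpa using this
      exact_mod_cast this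
    set l : ℝ := max (n : ℝ) 1 with hl
    have hl1 : 1 ≤ l := le_max_right _ _
    have hln : (n : ℝ) ≤ l := le_max_left _ _
    have hLE := final_longEdges S hS hL
    obtain ⟨z, hz, hzP, hz2⟩ := main_real l (by linarith) S hSne hS hLE (hdn.trans hln) 2
      (by norm_num) (by
        have : (dim S : ℝ) / l ≤ 1 := (div_le_one (by linarith)).2 (hdn.trans hln)
        linarith) ((2 : ℝ) • x) (Set.smul_mem_smul_set hx)
    have h21 : ((2 : ℝ) - 1) = 1 := by norm_num
    rw [h21, one_smul] at hz2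
    refine Set.mem_add.2 ⟨z, ⟨hzP, hz⟩, ((r : ℝ) + 1) • x - z, ⟨?_, ?_⟩, by simp⟩
    · have hsplit : ((r : ℝ) + 1) • x - z = ((2 : ℝ) • x - z) + ((r : ℝ) - 1) • x := by
        have : ((r : ℝ) + 1) • x = (2 : ℝ) • x + ((r : ℝ) - 1) • x := by
          rw [← add_smul]; congr 1; ring
        rw [this]; abel
      rw [hsplit]
      have hr2 : (r : ℝ) = 1 + (r - 1) := by ring
      rw [hr2, hconv.add_smul (by norm_num) (by linarith), one_smul]
      have : (1 : ℝ) + (r - 1) - 1 = r - 1 := by ring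
      rw [this]
      exact Set.add_mem_add hz2 (Set.smul_mem_smul_set hx)
    · exact (Lat n).sub_mem hcL hz

end MP81308f
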