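import Pool.Agent.Lib.MP_81308f_co.Defs

open scoped Pointwise BigOperators

namespace MP81308f

/-- Strict separation of an extreme point of a finite hull from the other points. -/
theorem star_sep {n : ℕ} (S : Finset (Fin n → ℝ)) (g : Fin n → ℝ)
    (hg : g ∈ (convexHull ℝ (S : Set (Fin n → ℝ))).extremePoints ℝ) :
    ∃ h : (Fin n → ℝ) →L[ℝ] ℝ, ∀ p ∈ S, p ≠ g → h g < h p := by
  classical
  have h1 := ((convex_convexHull ℝ
    (S : Set (Fin n → ℝ))).mem_extremePoints_iff_mem_sdiff_convexHull_sdiff).1 hg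
  have h2 : g ∉ convexHull ℝ ((S.erase g : Finset (Fin n → ℝ)) : Set (Fin n → ℝ)) := by
    intro hc
    apply h1.2
    refine convexHull_mono ?_ hc
    intro x hx
    rw [Finset.coe_erase] at hx
    exact ⟨subset_convexHull ℝ _ hx.1, hx.2⟩
  have hcl : IsClosed
      (convexHull ℝ ((S.erase g : Finset (Fin n → ℝ)) : Set (Fin n → ℝ))) :=
    (S.erase g).finite_toSet.isClosed_convexHull ℝ
  obtain ⟨h, u, hu1, hu2⟩ := geometric_hahn_banach_point_closed (convex_convexHull ℝ _) hcl h2
  refine ⟨h, fun p hp hpg => hu1.trans (hu2 p (subset_convexHull ℝ _ ?_))⟩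
  simp [hp, hpg]

/-- A criterion for a segment to be an extreme subset. -/
theorem star_edge {n : ℕ} (T : Finset (Fin n → ℝ)) (v b : Fin n → ℝ) (hv : v ∈ T) (hb : b ∈ T)
    (φ : (Fin n → ℝ) →ₗ[ℝ] ℝ) (h0 : ∀ p ∈ T, 0 ≤ φ (p - v)) (hb0 : φ (b - v) = 0)
    (h1 : ∀ p ∈ T, φ (p - v) = 0 → ∃ t : ℝ, 0 ≤ t ∧ t ≤ 1 ∧ p - v = t • (b - v)) :
    IsExtreme ℝ (convexHull ℝ (T : Set (Fin n → ℝ))) (segment ℝ v b) := by
  classical
  -- the linear functional is nonnegative on the hull
  have key : ∀ x ∈ convexHull ℝ (T : Set (Fin n → ℝ)), 0 ≤ φ (x - v) ∧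
      (φ (x - v) = 0 → x ∈ segment ℝ v b) := by
    intro x hx
    rw [Finset.mem_convexHull'] at hx
    obtain ⟨w, hw0, hw1, hwx⟩ := hx
    have hxv : x - v = ∑ y ∈ T, w y • (y - v) := by
      simp only [smul_sub, Finset.sum_sub_distrib, hwx, ← Finset.sum_smul, hw1, one_smul]
    have hφ : φ (x - v) = ∑ y ∈ T, w y * φ (y - v) := by
      rw [hxv, map_sum]
      exact Finset.sum_congr rfl (fun y _ => by rw [map_smul, smul_eq_mul])
    constructor
    · rw [hφ]
      exact Finset.sum_nonneg fun y hy => mul_nonneg (hw0 y hy) (h0 y hy)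
    · intro hz
      rw [hφ, Finset.sum_eq_zero_iff_of_nonneg
        (fun y hy => mul_nonneg (hw0 y hy) (h0 y hy))] at hz
      have hex : ∀ p : Fin n → ℝ, ∃ t : ℝ, 0 ≤ t ∧ t ≤ 1 ∧
          (p ∈ T → w p • (p - v) = (w p * t) • (b - v)) := by
        intro p
        by_cases hp : p ∈ T
        · rcases mul_eq_zero.1 (hz p hp) with h | h
          · exact ⟨0, le_refl _, zero_le_one, fun _ => by rw [h]; simp⟩
          · obtain ⟨t, ht0, ht1, ht⟩ := h1 p hp h
            exact ⟨t, ht0, ht1, fun _ => by rw [ht, smul_smul]⟩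
        · exact ⟨0, le_refl _, zero_le_one, fun h => absurd h hp⟩
      choose t ht0 ht1 ht using hex
      have hxv2 : x - v = (∑ y ∈ T, w y * t y) • (b - v) := by
        rw [hxv, Finset.sum_smul]
        exact Finset.sum_congr rfl (fun y hy => ht y hy)
      have hs0 : 0 ≤ ∑ y ∈ T, w y * t y :=
        Finset.sum_nonneg fun y hy => mul_nonneg (hw0 y hy) (ht0 y)
      have hs1 : ∑ y ∈ T, w y * t y ≤ 1 := by
        rw [← hw1]
        exact Finset.sum_le_sum fun y hy => mul_le_of_le_one_right (hw0 y hy) (ht1 y)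
      rw [segment_eq_image']
      refine ⟨∑ y ∈ T, w y * t y, ⟨hs0, hs1⟩, ?_⟩
      simp only
      rw [← hxv2]
      abel
  refine ⟨(convex_convexHull ℝ _).segment_subset (subset_convexHull ℝ _ (by exact_mod_cast hv))
    (subset_convexHull ℝ _ (by exact_mod_cast hb)), ?_⟩
  intro x hx y hy z hz hzo
  have hz0 : φ (z - v) = 0 := by
    rw [segment_eq_image'] at hz
    obtain ⟨s, _, rfl⟩ := hz
    simp only [add_sub_cancel_left, map_smul, hb0, smul_zero]
  obtain ⟨α, β, hα, hβ, hαβ, rfl⟩ := hzo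
  have he : α • x + β • y - v = α • (x - v) + β • (y - v) := by
    have : v = (α + β) • v := by rw [hαβ, one_smul]
    rw [smul_sub, smul_sub]
    nth_rewrite 1 [this]
    rw [add_smul]
    abel
  rw [he, map_add, map_smul, map_smul, smul_eq_mul, smul_eq_mul] at hz0
  have hx0 := (key x hx).1
  have hy0 := (key y hy).1
  apply (key x hx).2
  have hA : 0 ≤ α * φ (x - v) := mul_nonneg hα.le hx0
  have hB : 0 ≤ β * φ (y - v) := mul_nonneg hβ.le hy0
  have hA0 : α * φ (x - v) = 0 := by linarith
  rcases mul_eq_zero.1 hA0 with h | h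
  · exact absurd h hα.ne'
  · exact h

/-- (STAR) the edges at a vertex span. -/
theorem star_span {n : ℕ} (T : Finset (Fin n → ℝ)) (v : Fin n → ℝ) (hv : v ∈ T)
    (hvx : v ∈ (convexHull ℝ (T : Set (Fin n → ℝ))).extremePoints ℝ) :
    vectorSpan ℝ (T : Set (Fin n → ℝ)) ≤
      Submodule.span ℝ ((fun b => b - v) '' {b | b ∈ T ∧ IsEdge T v b}) := by
  classical
  set W := Submodule.span ℝ ((fun b => b - v) '' {b | b ∈ T ∧ IsEdge T v b}) with hW
  obtain ⟨f, hf⟩ := star_sep T v hvx
  have hfpos : ∀ p ∈ T.erase v, 0 < f (p - v) := by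
    intro p hp
    rw [map_sub]
    have := hf p (Finset.mem_of_mem_erase hp) (Finset.ne_of_mem_erase hp)
    linarith
  set ph : (Fin n → ℝ) → (Fin n → ℝ) := fun p => (f (p - v))⁻¹ • (p - v) with hph
  set S : Finset (Fin n → ℝ) := (T.erase v).image ph with hS
  have hfph : ∀ p ∈ T.erase v, f (ph p) = 1 := by
    intro p hp
    rw [hph]
    simp only [map_smul, smul_eq_mul]
    exact inv_mul_cancel₀ (hfpos p hp).ne'
  have hback : ∀ p ∈ T.erase v, p - v = f (p - v) • ph p := by
    intro p hp
    rw [hph]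
    simp only [smul_smul]
    rw [mul_inv_cancel₀ (hfpos p hp).ne', one_smul]
  -- every extreme point of the figure gives an edge
  have hext : ∀ g ∈ (convexHull ℝ (S : Set (Fin n → ℝ))).extremePoints ℝ, g ∈ W := by
    intro g hg
    have hgS : g ∈ S := by exact_mod_cast extremePoints_convexHull_subset hg
    obtain ⟨h, hh⟩ := star_sep S g hg
    have hfg : f g = 1 := by
      rw [hS, Finset.mem_image] at hgS
      obtain ⟨p, hp, rfl⟩ := hgS
      exact hfph p hp
    have hne : ((T.erase v).filter (fun p => ph p = g)).Nonempty := by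
      rw [hS, Finset.mem_image] at hgS
      obtain ⟨p, hp, hpg⟩ := hgS
      exact ⟨p, Finset.mem_filter.2 ⟨hp, hpg⟩⟩
    obtain ⟨b, hb, hbmax⟩ := Finset.exists_max_image _ (fun p => f (p - v)) hne
    rw [Finset.mem_filter] at hb
    obtain ⟨hbT, hbg⟩ := hb
    have hbv : b - v = f (b - v) • g := by
      have := hback b hbT
      rwa [hbg] at this
    have hedge : IsEdge T v b := by
      refine ⟨(Finset.ne_of_mem_erase hbT).symm, ?_⟩
      refine star_edge T v b hv (Finset.mem_of_mem_erase hbT)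
        ((h : (Fin n → ℝ) →ₗ[ℝ] ℝ) - (h g) • (f : (Fin n → ℝ) →ₗ[ℝ] ℝ)) ?_ ?_ ?_
      · intro p hp
        by_cases hpv : p = v
        · subst hpv
          simp
        have hpe : p ∈ T.erase v := Finset.mem_erase.2 ⟨hpv, hp⟩
        rw [hback p hpe]
        simp only [LinearMap.sub_apply, LinearMap.smul_apply, ContinuousLinearMap.coe_coe,
          map_smul, smul_eq_mul, hfph p hpe]
        have h3 : h g ≤ h (ph p) := by
          by_cases hpg : ph p = g
          · rw [hpg]
          · exact (hh (ph p) (Finset.mem_image_of_mem _ hpe) hpg).le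
        have h4 := hfpos p hpe
        nlinarith [mul_nonneg h4.le (sub_nonneg.2 h3)]
      · rw [hbv]
        simp only [LinearMap.sub_apply, LinearMap.smul_apply, ContinuousLinearMap.coe_coe,
          map_smul, smul_eq_mul, hfg]
        ring
      · intro p hp h0
        by_cases hpv : p = v
        · subst hpv
          exact ⟨0, le_refl _, zero_le_one, by simp⟩
        have hpe : p ∈ T.erase v := Finset.mem_erase.2 ⟨hpv, hp⟩
        have hpg : ph p = g := by
          by_contra hpg
          have h3 := hh (ph p) (Finset.mem_image_of_mem _ hpe) hpg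
          have h4 := hfpos p hpe
          rw [hback p hpe] at h0
          simp only [LinearMap.sub_apply, LinearMap.smul_apply, ContinuousLinearMap.coe_coe,
            map_smul, smul_eq_mul, hfph p hpe] at h0
          nlinarith [mul_pos h4 (sub_pos.2 h3)]
        have hle := hbmax p (Finset.mem_filter.2 ⟨hpe, hpg⟩)
        have hbpos := hfpos b hbT
        refine ⟨f (p - v) / f (b - v), div_nonneg (hfpos p hpe).le hbpos.le,
          (div_le_one hbpos).2 hle, ?_⟩
        have e1 := hback p hpe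
        rw [hpg] at e1
        have e2 : (f (p - v) / f (b - v)) • (b - v) = (f (p - v) / f (b - v)) • (f (b - v) • g) :=
          congrArg (fun z => (f (p - v) / f (b - v)) • z) hbv
        rw [e2, smul_smul, div_mul_cancel₀ _ hbpos.ne']
        exact e1
    have hbW : b - v ∈ W :=
      Submodule.subset_span ⟨b, ⟨Finset.mem_of_mem_erase hbT, hedge⟩, rfl⟩
    rw [← hbg]
    exact W.smul_mem _ hbW
  have hsub : convexHull ℝ (S : Set (Fin n → ℝ)) ⊆ (W : Set (Fin n → ℝ)) := by
    have hfin : ((convexHull ℝ (S : Set (Fin n → ℝ))).extremePoints ℝ).Finite :=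
      S.finite_toSet.subset extremePoints_convexHull_subset
    have h5 := closure_convexHull_extremePoints
      (S.finite_toSet.isCompact_convexHull ℝ) (convex_convexHull ℝ (S : Set (Fin n → ℝ)))
    rw [(hfin.isClosed_convexHull ℝ).closure_eq] at h5
    rw [← h5]
    exact convexHull_min (fun g hg => hext g hg) W.convex
  rw [vectorSpan_eq_span_vsub_set_right ℝ (show v ∈ (T : Set (Fin n → ℝ)) by exact_mod_cast hv),
    Submodule.span_le]
  rintro _ ⟨p, hp, rfl⟩
  show p - v ∈ W
  by_cases hpv : p = v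
  · subst hpv
    simp
  have hpe : p ∈ T.erase v := Finset.mem_erase.2 ⟨hpv, by exact_mod_cast hp⟩
  rw [hback p hpe]
  exact W.smul_mem _ (hsub (subset_convexHull ℝ _
    (by exact_mod_cast Finset.mem_image_of_mem ph hpe)))

end MP81308f
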