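import Pool.Agent.Lib.MP_81308f_co.Face
import Pool.Agent.Lib.MP_81308f_co.Star

open scoped Pointwise BigOperators

namespace MP81308f

/-- A face of a face is a face. -/
theorem pull_face_trans {n : ℕ} {T T1 T' : Finset (Fin n → ℝ)} (h1 : IsFace T T1)
    (h2 : IsFace T1 T') : IsFace T T' :=
  ⟨h2.1.trans h1.1, h2.2.1, h1.2.2.trans h2.2.2⟩

/-- The largest possible multiple of `N` in a decomposition of `c`. -/
theorem pull_max {n : ℕ} (T : Finset (Fin n → ℝ)) (N c : Fin n → ℝ) (W : ℝ) (hW : 0 ≤ W)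
    (hc : c ∈ W • convexHull ℝ (T : Set (Fin n → ℝ))) :
    ∃ s, 0 ≤ s ∧ s ≤ W ∧ ∃ y ∈ convexHull ℝ (T : Set (Fin n → ℝ)), c = s • N + (W - s) • y ∧
      ∀ s' : ℝ, ∀ y', 0 ≤ s' → s' ≤ W → y' ∈ convexHull ℝ (T : Set (Fin n → ℝ)) →
        c = s' • N + (W - s') • y' → s' ≤ s := by
  have h1 : IsCompact (Set.Icc 0 W ×ˢ convexHull ℝ (T : Set (Fin n → ℝ))) :=
    isCompact_Icc.prod (T.finite_toSet.isCompact_convexHull ℝ)
  have h2 : IsClosed {x : ℝ × (Fin n → ℝ) | c = x.1 • N + (W - x.1) • x.2} :=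
    isClosed_eq continuous_const (by fun_prop)
  have hK := h1.inter_right h2
  obtain ⟨y0, hy0, hy0c⟩ := Set.mem_smul_set.1 hc
  have hne : ((Set.Icc 0 W ×ˢ convexHull ℝ (T : Set (Fin n → ℝ))) ∩
      {x : ℝ × (Fin n → ℝ) | c = x.1 • N + (W - x.1) • x.2}).Nonempty := by
    refine ⟨(0, y0), ⟨⟨⟨le_rfl, hW⟩, hy0⟩, ?_⟩⟩
    show c = (0 : ℝ) • N + (W - 0) • y0
    rw [zero_smul, zero_add, sub_zero, hy0c]
  obtain ⟨⟨s, y⟩, ⟨⟨⟨hs0, hsW⟩, hy⟩, hc'⟩, hmax⟩ :=
    hK.exists_isMaxOn hne (continuous_fst.continuousOn)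
  refine ⟨s, hs0, hsW, y, hy, hc', ?_⟩
  intro s' y' h0 hW' hy' hc''
  exact hmax (show (s', y') ∈ _ from ⟨⟨⟨h0, hW'⟩, hy'⟩, hc''⟩)

/-- A finite set with at least two elements has an extreme point of its hull away from `N`. -/
theorem pull_other {n : ℕ} (T : Finset (Fin n → ℝ)) (N : Fin n → ℝ) (hN : N ∈ T)
    (hT : T ≠ {N}) :
    ∃ q ∈ (convexHull ℝ (T : Set (Fin n → ℝ))).extremePoints ℝ, q ≠ N := by
  by_contra hcon
  push Not at hcon
  apply hT
  have h1 := closure_convexHull_extremePoints (T.finite_toSet.isCompact_convexHull ℝ)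
    (convex_convexHull ℝ (T : Set (Fin n → ℝ)))
  have h2 : (convexHull ℝ (T : Set (Fin n → ℝ))).extremePoints ℝ ⊆ {N} :=
    fun q hq => hcon q hq
  have h3 : convexHull ℝ (T : Set (Fin n → ℝ)) ⊆ {N} := by
    rw [← h1]
    have h4 : convexHull ℝ ((convexHull ℝ (T : Set (Fin n → ℝ))).extremePoints ℝ) ⊆ {N} :=
      (convexHull_mono h2).trans (by rw [convexHull_singleton])
    exact closure_minimal h4 isClosed_singleton
  ext x
  rw [Finset.mem_singleton]
  constructor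
  · intro hx
    exact h3 (subset_convexHull ℝ _ hx)
  · rintro rfl
    exact hN

/-- Extending an independent set of edges at `v`. -/
theorem pull_extend {n : ℕ} (T : Finset (Fin n → ℝ)) (v : Fin n → ℝ) (hv : v ∈ T)
    (hvx : v ∈ (convexHull ℝ (T : Set (Fin n → ℝ))).extremePoints ℝ)
    (B1 : Finset (Fin n → ℝ)) (hB1 : ∀ b ∈ B1, b ∈ T ∧ IsEdge T v b)
    (hli : LinearIndepOn ℝ (fun b => b - v) (B1 : Set (Fin n → ℝ))) :
    ∃ B : Finset (Fin n → ℝ), B1 ⊆ B ∧ B ⊆ T ∧ B.card = dim T ∧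
      LinearIndepOn ℝ (fun b => b - v) (B : Set (Fin n → ℝ)) ∧ ∀ b ∈ B, IsEdge T v b := by
  classical
  obtain ⟨b, hbt, hsb, htb, hbli⟩ := exists_linearIndepOn_extension (K := ℝ)
    (t := {b | b ∈ T ∧ IsEdge T v b}) hli (fun x hx => hB1 x hx)
  have hfin : b.Finite := T.finite_toSet.subset (fun x hx => (hbt hx).1)
  refine ⟨hfin.toFinset, ?_, ?_, ?_, ?_, ?_⟩
  · intro x hx
    rw [Set.Finite.mem_toFinset]
    exact hsb hx
  · intro x hx
    rw [Set.Finite.mem_toFinset] at hx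
    exact (hbt hx).1
  · have hspan : vectorSpan ℝ (T : Set (Fin n → ℝ))
        = Submodule.span ℝ ((fun b => b - v) '' b) := by
      apply le_antisymm
      · refine (star_span T v hv hvx).trans ?_
        exact Submodule.span_le.2 htb
      · refine Submodule.span_le.2 ?_
        rintro _ ⟨x, hx, rfl⟩
        exact vsub_mem_vectorSpan ℝ (hbt hx).1 hv
    have hft : Fintype b := hfin.fintype
    have h1 : Module.finrank ℝ (Submodule.span ℝ (Set.range (fun x : b => (x : Fin n → ℝ) - v)))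
        = Fintype.card b := finrank_span_eq_card hbli
    have h2 : Set.range (fun x : b => (x : Fin n → ℝ) - v) = (fun b => b - v) '' b := by
      ext y
      constructor
      · rintro ⟨x, rfl⟩
        exact ⟨x, x.2, rfl⟩
      · rintro ⟨x, hx, rfl⟩
        exact ⟨⟨x, hx⟩, rfl⟩
    rw [h2] at h1
    unfold dim
    rw [hspan, h1, ← Set.toFinset_card b]
    congr 1
    ext x
    simp
  · rw [Set.Finite.coe_toFinset]
    exact hbli
  · intro x hx
    rw [Set.Finite.mem_toFinset] at hx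
    exact (hbt hx).2

/-- (PULL) the pulling inequality. -/
theorem pull {n : ℕ} (κ D β : ℝ) (f : (Fin n → ℝ) →ₗ[ℝ] ℝ) (hκ : 0 ≤ κ)
    (T : Finset (Fin n → ℝ)) (hT : T.Nonempty) (S₀ W M : ℝ) (c : Fin n → ℝ)
    (hW : 0 ≤ W) (hc : c ∈ W • convexHull ℝ (T : Set (Fin n → ℝ)))
    (hprop : ∀ T', IsFace T T' → ∀ s : ℝ, 0 ≤ s → s ≤ W →
      c ∈ s • convexHull ℝ (T' : Set (Fin n → ℝ)) + (W - s) • convexHull ℝ (T : Set (Fin n → ℝ)) →
      κ * (D - dim T') ≤ S₀ + (W - s))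
    (hM : ∀ v ∈ T, f v + β ≤ M) (hM' : ∃ v ∈ T, f v + β = M) :
    ∃ v ∈ T, v ∈ (convexHull ℝ (T : Set (Fin n → ℝ))).extremePoints ℝ ∧
      ∃ B ⊆ T, B.card = dim T ∧ LinearIndepOn ℝ (fun b => b - v) (B : Set (Fin n → ℝ)) ∧
        (∀ b ∈ B, IsEdge T v b) ∧
        κ * ((D - dim T) * M + ∑ b ∈ B, (f b + β)) + (S₀ + W - κ * D) * (f v + β)
          ≤ f c + W * β + S₀ * M := by
  classical
  induction hcard : T.card using Nat.strong_induction_on generalizing T S₀ W M c with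
  | _ m ih =>
  obtain ⟨N, hN, hNM⟩ := hM'
  by_cases hTN : T = {N}
  · subst hTN
    have hcN : c = W • N := by
      obtain ⟨y, hy, rfl⟩ := Set.mem_smul_set.1 hc
      rw [Finset.coe_singleton, convexHull_singleton, Set.mem_singleton_iff] at hy
      rw [hy]
    have hd : dim ({N} : Finset (Fin n → ℝ)) = 0 := by
      unfold dim
      rw [Finset.coe_singleton, vectorSpan_singleton]
      exact finrank_bot ℝ _
    refine ⟨N, hN, ?_, ∅, Finset.empty_subset _, ?_, ?_, ?_, ?_⟩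
    · rw [Finset.coe_singleton, convexHull_singleton, extremePoints_singleton]
      rfl
    · rw [hd, Finset.card_empty]
    · rw [Finset.coe_empty]
      exact linearIndepOn_empty ℝ _
    · intro b hb
      exact absurd hb (Finset.notMem_empty b)
    · rw [hd, hcN, map_smul, Finset.sum_empty, smul_eq_mul, ← hNM]
      push_cast
      apply le_of_eq
      ring
  · have hconvT := convex_convexHull ℝ (T : Set (Fin n → ℝ))
    have hNc : N ∈ convexHull ℝ (T : Set (Fin n → ℝ)) := subset_convexHull ℝ _ hN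
    obtain ⟨s, hs0, hsW, y, hy, hcy, hmax⟩ := pull_max T N c W hW hc
    -- the point q
    obtain ⟨q, hq, hqc, hqN⟩ : ∃ q ∈ convexHull ℝ (T : Set (Fin n → ℝ)),
        c = s • N + (W - s) • q ∧
        ∀ δ : ℝ, 0 < δ → δ ≤ 1 → ∀ y' ∈ convexHull ℝ (T : Set (Fin n → ℝ)),
          q ≠ δ • N + (1 - δ) • y' := by
      rcases hsW.lt_or_eq with hlt | heq
      · refine ⟨y, hy, hcy, ?_⟩
        intro δ hδ hδ1 y' hy' hyq
        have h1 := hmax (s + (W - s) * δ) y' (by nlinarith) (by nlinarith) hy' (by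
          rw [hcy, hyq]
          module)
        nlinarith
      · obtain ⟨q, hq, hqN⟩ := pull_other T N hN hTN
        refine ⟨q, hq.1, ?_, ?_⟩
        · rw [hcy, heq, sub_self, zero_smul, zero_smul]
        · intro δ hδ hδ1 y' hy' hyq
          rcases hδ1.lt_or_eq with hlt1 | heq1
          · apply hqN
            exact (hq.2 hNc hy' ⟨δ, 1 - δ, hδ, by linarith, by ring, hyq.symm⟩).symm
          · apply hqN
            rw [hyq, heq1, one_smul, sub_self, zero_smul, add_zero]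
    obtain ⟨T1, hT1, hqT1, hT1d⟩ := face_of_point T q hq
    have hNT1 : N ∉ T1 := by
      intro h
      obtain ⟨δ, hδ, hδ1, y', hy', hqy⟩ := hT1d N (subset_convexHull ℝ _ h)
      exact hqN δ hδ hδ1 y' hy' hqy
    have hcardlt : T1.card < m := by
      rw [← hcard]
      exact Finset.card_lt_card ⟨hT1.1, fun h => hNT1 (h hN)⟩
    have hW1 : 0 ≤ W - s := sub_nonneg.2 hsW
    have hc1 : (W - s) • q ∈ (W - s) • convexHull ℝ (T1 : Set (Fin n → ℝ)) :=
      Set.smul_mem_smul_set hqT1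
    obtain ⟨N1, hN1, hN1M⟩ := T1.exists_max_image (fun v => f v + β) hT1.2.1
    have hM1 : f N1 + β ≤ M := hM N1 (hT1.1 hN1)
    have hconvT1T : convexHull ℝ (T1 : Set (Fin n → ℝ)) ⊆ convexHull ℝ (T : Set (Fin n → ℝ)) :=
      convexHull_mono (fun x hx => hT1.1 hx)
    -- the sum with s N
    have hadd : ∀ (s' : ℝ) (T' : Finset (Fin n → ℝ)), s' ≤ W - s →
        (W - s) • q ∈ s' • convexHull ℝ (T' : Set (Fin n → ℝ)) +
          (W - s - s') • convexHull ℝ (T1 : Set (Fin n → ℝ)) →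
        c ∈ s' • convexHull ℝ (T' : Set (Fin n → ℝ)) +
          (W - s') • convexHull ℝ (T : Set (Fin n → ℝ)) := by
      intro s' T' hs' h
      obtain ⟨p1, hp1, p2, hp2, hp⟩ := Set.mem_add.1 h
      refine Set.mem_add.2 ⟨p1, hp1, p2 + s • N, ?_, ?_⟩
      · have h1 : W - s' = (W - s - s') + s := by ring
        rw [h1, hconvT.add_smul (by linarith) hs0]
        exact Set.add_mem_add (Set.smul_set_mono hconvT1T hp2) (Set.smul_mem_smul_set hNc)
      · rw [hqc, ← hp]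
        abel
    obtain ⟨v, hv, hvx, B1, hB1T, hB1c, hB1li, hB1e, hineq⟩ := ih T1.card hcardlt T1 hT1.2.1
      (S₀ + s) (W - s) (f N1 + β) ((W - s) • q) hW1 hc1 (by
        intro T' hT' s' hs'0 hs'W h
        have h1 := hprop T' (pull_face_trans hT1 hT') s' hs'0 (by linarith)
          (hadd s' T' hs'W h)
        linarith) hN1M ⟨N1, hN1, rfl⟩ rfl
    have hS1 : κ * (D - dim T1) ≤ S₀ + s := by
      have h1 := hprop T1 hT1 (W - s) hW1 (by linarith) (hadd (W - s) T1 le_rfl (by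
        rw [sub_self]
        refine Set.mem_add.2 ⟨_, hc1, 0, ?_, add_zero _⟩
        rw [Set.mem_smul_set]
        exact ⟨q, hqT1, zero_smul ℝ q⟩))
      linarith
    have hvxT := hT1.2.2.extremePoints_subset_extremePoints hvx
    obtain ⟨B, hB1B, hBT, hBc, hBli, hBe⟩ := pull_extend T v (hT1.1 hv) hvxT B1
      (fun b hb => ⟨hT1.1 (hB1T hb), ⟨(hB1e b hb).1, hT1.2.2.trans (hB1e b hb).2⟩⟩) hB1li
    refine ⟨v, hT1.1 hv, hvxT, B, hBT, hBc, hBli, hBe, ?_⟩
    have hfc : f c = f ((W - s) • q) + s * (M - β) := by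
      rw [hqc, map_add, map_smul f s N, smul_eq_mul, ← hNM]
      ring
    have hsum : ∑ b ∈ B, (f b + β) = ∑ b ∈ B \ B1, (f b + β) + ∑ b ∈ B1, (f b + β) :=
      (Finset.sum_sdiff hB1B).symm
    have hsum2 : ∑ b ∈ B \ B1, (f b + β) ≤ ((dim T : ℝ) - dim T1) * M := by
      have h1 : ∑ b ∈ B \ B1, (f b + β) ≤ ∑ b ∈ B \ B1, M :=
        Finset.sum_le_sum (fun b hb => hM b (hBT (Finset.mem_sdiff.1 hb).1))
      rw [Finset.sum_const, Finset.card_sdiff_of_subset hB1B, hBc, hB1c, nsmul_eq_mul,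
        Nat.cast_sub (by rw [← hBc, ← hB1c]; exact Finset.card_le_card hB1B)] at h1
      exact h1
    have h3 : κ * ∑ b ∈ B \ B1, (f b + β) ≤ κ * (((dim T : ℝ) - dim T1) * M) :=
      mul_le_mul_of_nonneg_left hsum2 hκ
    have h4 : κ * (D - dim T1) * (M - (f N1 + β)) ≤ (S₀ + s) * (M - (f N1 + β)) :=
      mul_le_mul_of_nonneg_right hS1 (by linarith)
    rw [hfc, hsum]
    nlinarith [hineq, h3, h4]

end MP81308f
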