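import Pool.Agent.Lib.MP_81308f_co.Ind

/-!
# MP_81308f_co : multiples of lattice polytopes

`kQ` is integrally closed for `k ≥ n - 1`, in the form needed for the class hulls
`conv (P ∩ (v + l M))`.
-/

open scoped Pointwise BigOperators

namespace MP81308f

theorem kq_cone {n : ℕ} {K : Set (Fin n → ℝ)} (hK : Convex ℝ K) (hne : K.Nonempty)
    (t : Finset (Fin n → ℝ)) (ht : ∀ v ∈ t, v ∈ K) (a : (Fin n → ℝ) → ℝ)
    (ha : ∀ v ∈ t, 0 ≤ a v) :
    ∑ v ∈ t, a v • v ∈ (∑ v ∈ t, a v) • K := by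
  classical
  induction t using Finset.induction_on with
  | empty =>
    simp only [Finset.sum_empty]
    rw [Set.zero_smul_set hne]
    exact Set.mem_zero.mpr rfl
  | insert e S he ih =>
    have h1 := ih (fun v hv => ht v (Finset.mem_insert_of_mem hv))
      (fun v hv => ha v (Finset.mem_insert_of_mem hv))
    rw [Finset.sum_insert he, Finset.sum_insert he]
    rw [hK.add_smul (ha e (Finset.mem_insert_self _ _))
      (Finset.sum_nonneg fun v hv => ha v (Finset.mem_insert_of_mem hv))]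
    exact Set.add_mem_add (Set.smul_mem_smul_set (ht e (Finset.mem_insert_self _ _))) h1

/-- A point which is a convex combination of `t` with weight `< 1` at itself is in the convex
hull of the others. -/
theorem kq_erase {n : ℕ} (t : Finset (Fin n → ℝ)) (q : Fin n → ℝ) (hq : q ∈ t)
    (g : (Fin n → ℝ) → ℝ) (hg : ∀ v ∈ t, 0 ≤ g v) (hs : ∑ v ∈ t, g v = 1) (hg1 : g q < 1)
    (he : ∑ v ∈ t, g v • v = q) :
    q ∈ convexHull ℝ ((t.erase q : Finset (Fin n → ℝ)) : Set (Fin n → ℝ)) := by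
  classical
  have h1 : 0 < 1 - g q := by linarith
  have hs' : ∑ v ∈ t.erase q, g v = 1 - g q := by
    rw [← hs, ← Finset.add_sum_erase t g hq]; ring
  have he' : ∑ v ∈ t.erase q, g v • v = (1 - g q) • q := by
    have := Finset.add_sum_erase t (fun v => g v • v) hq
    rw [he] at this
    have h2 : ∑ v ∈ t.erase q, g v • v = q - g q • q := by
      rw [eq_sub_iff_add_eq, add_comm]; exact this
    rw [h2, sub_smul, one_smul]
  rw [Finset.mem_convexHull']
  refine ⟨fun v => (1 - g q)⁻¹ * g v, fun v hv => ?_, ?_, ?_⟩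
  · exact mul_nonneg (inv_nonneg.2 h1.le) (hg v (Finset.mem_of_mem_erase hv))
  · rw [← Finset.mul_sum, hs', inv_mul_cancel₀ h1.ne']
  · simp only [mul_smul]
    rw [← Finset.smul_sum, he', smul_smul, inv_mul_cancel₀ h1.ne', one_smul]

/-- An empty simplex (in a weak sense) around a point. -/
theorem kq_min {n : ℕ} (S : Set (Fin n → ℝ)) (hS : ∀ v ∈ S, v ∈ Lat n) (x : Fin n → ℝ)
    (hx : x ∈ convexHull ℝ S) :
    ∃ t : Finset (Fin n → ℝ), (∀ v ∈ t, v ∈ Lat n ∧ v ∈ convexHull ℝ S) ∧ t.card ≤ n + 1 ∧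
      x ∈ convexHull ℝ (t : Set (Fin n → ℝ)) ∧
      (∀ p ∈ Lat n, p ∈ convexHull ℝ (t : Set (Fin n → ℝ)) → p ∈ t) ∧
      ∀ v ∈ t, v ∉ convexHull ℝ ((t.erase v : Finset (Fin n → ℝ)) : Set (Fin n → ℝ)) := by
  classical
  let μ : Finset (Fin n → ℝ) → ℕ := fun t =>
    {z : Fin n → ℝ | z ∈ Lat n ∧ z ∈ convexHull ℝ (t : Set (Fin n → ℝ))}.ncard + t.card
  let A : Set (Finset (Fin n → ℝ)) := {t | (∀ v ∈ t, v ∈ Lat n ∧ v ∈ convexHull ℝ S) ∧
    t.card ≤ n + 1 ∧ x ∈ convexHull ℝ (t : Set (Fin n → ℝ))}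
  have hA : A.Nonempty := by
    rw [convexHull_eq_union] at hx
    simp only [Set.mem_iUnion] at hx
    obtain ⟨t, hts, hai, hxt⟩ := hx
    refine ⟨t, fun v hv => ⟨hS v (hts hv), subset_convexHull ℝ _ (hts hv)⟩, ?_, hxt⟩
    have h1 := hai.card_le_finrank_succ
    have h2 : Module.finrank ℝ (vectorSpan ℝ (Set.range ((↑) : t → Fin n → ℝ))) ≤ n := by
      have := Submodule.finrank_le (vectorSpan ℝ (Set.range ((↑) : t → Fin n → ℝ)))
      rwa [Module.finrank_fin_fun] at this
    rw [Fintype.card_coe] at h1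
    omega
  obtain ⟨t, htA, hmin⟩ := WellFounded.has_min (measure μ).wf A hA
  obtain ⟨ht1, ht2, ht3⟩ := htA
  have hind : ∀ v ∈ t, v ∉ convexHull ℝ ((t.erase v : Finset (Fin n → ℝ)) : Set (Fin n → ℝ)) := by
    intro v hv hcon
    have hsub : convexHull ℝ (t : Set (Fin n → ℝ)) ⊆
        convexHull ℝ ((t.erase v : Finset (Fin n → ℝ)) : Set (Fin n → ℝ)) := by
      refine convexHull_min ?_ (convex_convexHull ℝ _)
      intro y hy
      by_cases hyv : y = v
      · rw [hyv]; exact hcon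
      · exact subset_convexHull ℝ _ (Finset.mem_coe.2 (Finset.mem_erase.2 ⟨hyv, hy⟩))
    refine hmin (t.erase v) ⟨fun y hy => ht1 y (Finset.mem_of_mem_erase hy), ?_, hsub ht3⟩ ?_
    · exact (Finset.card_erase_le).trans ht2
    · change μ (t.erase v) < μ t
      have h1 : {z : Fin n → ℝ | z ∈ Lat n ∧
          z ∈ convexHull ℝ ((t.erase v : Finset (Fin n → ℝ)) : Set (Fin n → ℝ))}.ncard ≤
          {z : Fin n → ℝ | z ∈ Lat n ∧ z ∈ convexHull ℝ (t : Set (Fin n → ℝ))}.ncard := by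
        refine Set.ncard_le_ncard ?_ (ind_finite' t)
        rintro z ⟨hz1, hz2⟩
        refine ⟨hz1, convexHull_mono ?_ hz2⟩
        exact Finset.coe_subset.2 (Finset.erase_subset _ _)
      have h2 := Finset.card_erase_lt_of_mem hv
      simp only [μ]
      omega
  refine ⟨t, ht1, ht2, ht3, ?_, hind⟩
  intro p hpL hp
  by_contra hpt
  obtain ⟨m, hm0, hm1, hm2⟩ := Finset.mem_convexHull'.1 hp
  obtain ⟨lam, hl0, hl1, hl2⟩ := Finset.mem_convexHull'.1 ht3
  -- the vertex to be replaced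
  have hne : (t.filter (fun v => 0 < m v)).Nonempty := by
    by_contra hemp
    rw [Finset.not_nonempty_iff_eq_empty, Finset.filter_eq_empty_iff] at hemp
    have : ∑ v ∈ t, m v = 0 := Finset.sum_eq_zero fun v hv =>
      le_antisymm (not_lt.1 (hemp hv)) (hm0 v hv)
    rw [hm1] at this
    exact one_ne_zero this
  obtain ⟨w, hw, hwmin⟩ := Finset.exists_min_image _ (fun v => lam v / m v) hne
  rw [Finset.mem_filter] at hw
  obtain ⟨hwt, hmw⟩ := hw
  obtain ⟨θ, hθ⟩ : ∃ θ, θ = lam w / m w := ⟨_, rfl⟩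
  have hθ0 : 0 ≤ θ := by rw [hθ]; exact div_nonneg (hl0 w hwt) hmw.le
  have hcoef : ∀ v ∈ t, 0 ≤ lam v - θ * m v := by
    intro v hv
    rcases (hm0 v hv).eq_or_lt with h | h
    · rw [← h, mul_zero, sub_zero]; exact hl0 v hv
    · have h1 := hwmin v (Finset.mem_filter.2 ⟨hv, h⟩)
      rw [← hθ] at h1
      have h2 := (le_div_iff₀ h).1 h1
      linarith
  have hcw : lam w - θ * m w = 0 := by
    rw [hθ, div_mul_cancel₀ _ hmw.ne', sub_self]
  have hpe : p ∉ t.erase w := fun h => hpt (Finset.mem_of_mem_erase h)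
  have hpw : p ≠ w := fun h => hpt (h ▸ hwt)
  -- the new set
  obtain ⟨t', ht'⟩ : ∃ t' : Finset (Fin n → ℝ), t' = insert p (t.erase w) := ⟨_, rfl⟩
  have hsub : convexHull ℝ (t' : Set (Fin n → ℝ)) ⊆ convexHull ℝ (t : Set (Fin n → ℝ)) := by
    refine convexHull_min ?_ (convex_convexHull ℝ _)
    intro y hy
    rw [ht', Finset.mem_coe, Finset.mem_insert] at hy
    rcases hy with rfl | hy
    · exact hp
    · exact subset_convexHull ℝ _ (Finset.mem_coe.2 (Finset.mem_of_mem_erase hy))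
  have hxt' : x ∈ convexHull ℝ (t' : Set (Fin n → ℝ)) := by
    rw [Finset.mem_convexHull']
    refine ⟨fun y => if y = p then θ else lam y - θ * m y, ?_, ?_, ?_⟩
    · intro y hy
      by_cases hyp : y = p
      · simp only [hyp, if_true]; exact hθ0
      · simp only [hyp, if_false]
        rw [ht', Finset.mem_insert] at hy
        rcases hy with h | h
        · exact absurd h hyp
        · exact hcoef y (Finset.mem_of_mem_erase h)
    · rw [ht', Finset.sum_insert hpe]
      have h1 : ∑ y ∈ t.erase w, (if y = p then θ else lam y - θ * m y) =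
          ∑ y ∈ t.erase w, (lam y - θ * m y) := by
        refine Finset.sum_congr rfl fun y hy => ?_
        rw [if_neg]
        rintro rfl
        exact hpe hy
      have h2 : ∑ y ∈ t.erase w, (lam y - θ * m y) = ∑ y ∈ t, (lam y - θ * m y) := by
        rw [← Finset.add_sum_erase t _ hwt, hcw, zero_add]
      rw [h1, h2, if_pos rfl, Finset.sum_sub_distrib, ← Finset.mul_sum, hl1, hm1]
      ring
    · rw [ht', Finset.sum_insert hpe]
      have h1 : ∑ y ∈ t.erase w, (if y = p then θ else lam y - θ * m y) • y =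
          ∑ y ∈ t.erase w, (lam y - θ * m y) • y := by
        refine Finset.sum_congr rfl fun y hy => ?_
        rw [if_neg]
        rintro rfl
        exact hpe hy
      have h2 : ∑ y ∈ t.erase w, (lam y - θ * m y) • y = ∑ y ∈ t, (lam y - θ * m y) • y := by
        rw [← Finset.add_sum_erase t _ hwt, hcw, zero_smul, zero_add]
      rw [h1, h2]
      simp only [if_true, sub_smul, mul_smul, Finset.sum_sub_distrib]
      rw [← Finset.smul_sum, hl2, hm2]
      abel
  have hwt' : w ∉ convexHull ℝ (t' : Set (Fin n → ℝ)) := by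
    intro hw'
    obtain ⟨β, hβ0, hβ1, hβ2⟩ := Finset.mem_convexHull'.1 hw'
    rw [ht'] at hβ0 hβ1 hβ2
    rw [Finset.sum_insert hpe] at hβ1 hβ2
    have hβp := hβ0 p (Finset.mem_insert_self _ _)
    have hmw1 : m w < 1 := by
      by_contra hge
      push Not at hge
      have h1 : ∑ v ∈ t.erase w, m v = 1 - m w := by
        rw [← hm1, ← Finset.add_sum_erase t m hwt]; ring
      have h2 : 0 ≤ ∑ v ∈ t.erase w, m v :=
        Finset.sum_nonneg fun v hv => hm0 v (Finset.mem_of_mem_erase hv)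
      have h3 : ∑ v ∈ t.erase w, m v = 0 := by linarith
      have h4 := (Finset.sum_eq_zero_iff_of_nonneg
        (fun v hv => hm0 v (Finset.mem_of_mem_erase hv))).1 h3
      have h5 : m w = 1 := by linarith
      have h6 : ∑ v ∈ t.erase w, m v • v = 0 :=
        Finset.sum_eq_zero fun v hv => by rw [h4 v hv, zero_smul]
      have h7 : p = w := by
        rw [← hm2, ← Finset.add_sum_erase t _ hwt, h6, h5, one_smul, add_zero]
      exact hpw h7
    have hβp1 : β p ≤ 1 := by
      have : 0 ≤ ∑ v ∈ t.erase w, β v :=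
        Finset.sum_nonneg fun v hv => hβ0 v (Finset.mem_insert_of_mem hv)
      linarith
    refine hind w hwt (kq_erase t w hwt (fun v => if v = w then β p * m w else β v + β p * m v)
      ?_ ?_ ?_ ?_)
    · intro v hv
      by_cases hvw : v = w
      · simp only [hvw, if_true]; exact mul_nonneg hβp hmw.le
      · simp only [hvw, if_false]
        exact add_nonneg (hβ0 v (Finset.mem_insert_of_mem (Finset.mem_erase.2 ⟨hvw, hv⟩)))
          (mul_nonneg hβp (hm0 v hv))
    · rw [← Finset.add_sum_erase t _ hwt]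
      have h1 : ∑ v ∈ t.erase w, (if v = w then β p * m w else β v + β p * m v) =
          ∑ v ∈ t.erase w, (β v + β p * m v) := by
        refine Finset.sum_congr rfl fun y hy => ?_
        rw [if_neg (Finset.ne_of_mem_erase hy)]
      have h2 : ∑ v ∈ t.erase w, m v = 1 - m w := by
        rw [← hm1, ← Finset.add_sum_erase t m hwt]; ring
      rw [h1, if_pos rfl, Finset.sum_add_distrib, ← Finset.mul_sum, h2]
      linear_combination hβ1
    · simp only [if_true]
      nlinarith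
    · rw [← Finset.add_sum_erase t _ hwt]
      have h1 : ∑ v ∈ t.erase w, (if v = w then β p * m w else β v + β p * m v) • v =
          ∑ v ∈ t.erase w, (β v • v + (β p * m v) • v) := by
        refine Finset.sum_congr rfl fun y hy => ?_
        rw [if_neg (Finset.ne_of_mem_erase hy), add_smul]
      have h2 : ∑ v ∈ t.erase w, m v • v = p - m w • w := by
        rw [← hm2, ← Finset.add_sum_erase t _ hwt]; abel
      simp only [h1, if_true, Finset.sum_add_distrib]
      have h3 : ∑ v ∈ t.erase w, β v • v = w - β p • p := by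
        rw [eq_sub_iff_add_eq, add_comm]; exact hβ2
      simp only [mul_smul]
      rw [← Finset.smul_sum, h2, h3, smul_sub]
      abel
  refine hmin t' ⟨?_, ?_, hxt'⟩ ?_
  · intro y hy
    rw [ht', Finset.mem_insert] at hy
    rcases hy with rfl | hy
    · refine ⟨hpL, ?_⟩
      refine convexHull_min ?_ (convex_convexHull ℝ _) hp
      exact fun v hv => (ht1 v hv).2
    · exact ht1 y (Finset.mem_of_mem_erase hy)
  · rw [ht', Finset.card_insert_of_notMem hpe, Finset.card_erase_of_mem hwt]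
    have := Finset.card_pos.2 ⟨w, hwt⟩
    omega
  · change μ t' < μ t
    have h1 : {z : Fin n → ℝ | z ∈ Lat n ∧ z ∈ convexHull ℝ (t' : Set (Fin n → ℝ))}.ncard <
        {z : Fin n → ℝ | z ∈ Lat n ∧ z ∈ convexHull ℝ (t : Set (Fin n → ℝ))}.ncard := by
      refine Set.ncard_lt_ncard ?_ (ind_finite' t)
      refine ⟨fun z hz => ⟨hz.1, hsub hz.2⟩, fun hcon => ?_⟩
      have h2 : w ∈ {z : Fin n → ℝ | z ∈ Lat n ∧ z ∈ convexHull ℝ (t : Set (Fin n → ℝ))} :=
        ⟨(ht1 w hwt).1, subset_convexHull ℝ _ (Finset.mem_coe.2 hwt)⟩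
      exact hwt' (hcon h2).2
    have h2 : t'.card = t.card := by
      rw [ht', Finset.card_insert_of_notMem hpe, Finset.card_erase_of_mem hwt]
      have := Finset.card_pos.2 ⟨w, hwt⟩
      omega
    simp only [μ]
    omega

theorem kq_split {ι : Type*} (t : Finset ι) (m : ι → ℕ) :
    ∀ k : ℕ, k ≤ ∑ v ∈ t, m v → ∃ z : ι → ℕ, (∀ v ∈ t, z v ≤ m v) ∧ ∑ v ∈ t, z v = k := by
  classical
  induction t using Finset.induction_on with
  | empty =>
    intro k hk
    refine ⟨fun _ => 0, by simp, ?_⟩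
    simp only [Finset.sum_empty] at hk ⊢
    omega
  | insert e S he ih =>
    intro k hk
    rw [Finset.sum_insert he] at hk
    obtain ⟨z, hz1, hz2⟩ := ih (k - min k (m e)) (by omega)
    refine ⟨fun v => if v = e then min k (m e) else z v, ?_, ?_⟩
    · intro v hv
      by_cases hve : v = e
      · simp only [hve, if_true]; exact min_le_right _ _
      · simp only [hve, if_false]
        exact hz1 v (Finset.mem_of_mem_insert_of_ne hv hve)
    · rw [Finset.sum_insert he, if_pos rfl]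
      have : ∑ v ∈ S, (if v = e then min k (m e) else z v) = ∑ v ∈ S, z v := by
        refine Finset.sum_congr rfl fun v hv => ?_
        rw [if_neg]
        rintro rfl
        exact he hv
      rw [this, hz2]
      omega

theorem kq_natsmul {n : ℕ} (k : ℕ) {v : Fin n → ℝ} (hv : v ∈ Lat n) : (k : ℝ) • v ∈ Lat n := by
  have := (Lat n).nsmul_mem hv k
  rwa [← Nat.cast_smul_eq_nsmul ℝ] at this

theorem kq_main {n k : ℕ} (hk : n ≤ k + 1) (S : Set (Fin n → ℝ)) (hS : ∀ v ∈ S, v ∈ Lat n)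
    (r : ℕ) (hr : 1 ≤ r) (c : Fin n → ℝ) (hc : c ∈ Lat n)
    (hcK : c ∈ (((r : ℝ) + 1) * k) • convexHull ℝ S) :
    ∃ z ∈ Lat n, z ∈ (k : ℝ) • convexHull ℝ S ∧ c - z ∈ ((r : ℝ) * k) • convexHull ℝ S := by
  classical
  obtain ⟨x, hx, hcx⟩ := Set.mem_smul_set.1 hcK
  obtain ⟨t, ht1, ht2, ht3, hempty, hind⟩ := kq_min S hS x hx
  obtain ⟨lam, hl0, hl1, hl2⟩ := Finset.mem_convexHull'.1 ht3
  set N : ℕ := (r + 1) * k with hN
  have hNr : (N : ℝ) = ((r : ℝ) + 1) * k := by rw [hN]; push_cast; ring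
  let a : (Fin n → ℝ) → ℝ := fun v => N * lam v
  have ha0 : ∀ v ∈ t, 0 ≤ a v := fun v hv => mul_nonneg (Nat.cast_nonneg _) (hl0 v hv)
  have hasum : ∑ v ∈ t, a v = N := by
    simp only [a]; rw [← Finset.mul_sum, hl1, mul_one]
  have hac : ∑ v ∈ t, a v • v = c := by
    simp only [a, mul_smul]
    rw [← Finset.smul_sum, hl2, hNr]; exact hcx
  let m : (Fin n → ℝ) → ℕ := fun v => ⌊a v⌋₊
  have hma : ∀ v ∈ t, (m v : ℝ) ≤ a v := fun v hv => Nat.floor_le (ha0 v hv)
  have ham : ∀ v ∈ t, a v < m v + 1 := fun v _ => Nat.lt_floor_add_one (a v)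
  have htne : t.Nonempty := by
    by_contra hemp
    rw [Finset.not_nonempty_iff_eq_empty] at hemp
    rw [hemp] at hl1
    simp at hl1
  have hKne : (convexHull ℝ S).Nonempty := ⟨x, hx⟩
  have hmsum_le : ∑ v ∈ t, m v ≤ N := by
    have h1 : (∑ v ∈ t, (m v : ℝ)) ≤ ∑ v ∈ t, a v := Finset.sum_le_sum hma
    rw [hasum] at h1
    exact_mod_cast h1
  have hmsum_lt : N < ∑ v ∈ t, m v + t.card := by
    have h1 : ∑ v ∈ t, a v < ∑ v ∈ t, ((m v : ℝ) + 1) :=
      Finset.sum_lt_sum_of_nonempty htne ham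
    rw [hasum, Finset.sum_add_distrib, Finset.sum_const, nsmul_eq_mul, mul_one] at h1
    exact_mod_cast h1
  have hkey : r * k ≤ ∑ v ∈ t, m v := by
    by_contra hlt
    push Not at hlt
    have hcard : t.card = n + 1 ∧ ∑ v ∈ t, m v + t.card = N + 1 ∧ 2 ≤ t.card := by
      have h1 : N = r * k + k := by rw [hN]; ring
      refine ⟨by omega, by omega, ?_⟩
      by_contra h2
      push Not at h2
      omega
    obtain ⟨-, hc2, hc3⟩ := hcard
    -- the complementary weights
    let g : (Fin n → ℝ) → ℝ := fun v => 1 - (a v - m v)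
    have hg0 : ∀ v ∈ t, 0 < g v := fun v hv => by
      have := ham v hv
      simp only [g]; linarith
    have hgs : ∑ v ∈ t, g v = 1 := by
      simp only [g]
      rw [Finset.sum_sub_distrib, Finset.sum_sub_distrib, hasum, Finset.sum_const, nsmul_eq_mul,
        mul_one]
      have : (∑ v ∈ t, (m v : ℝ)) + t.card = N + 1 := by exact_mod_cast hc2
      linarith
    have hgq : ∑ v ∈ t, g v • v = ∑ v ∈ t, v - (c - ∑ v ∈ t, (m v : ℝ) • v) := by
      simp only [g, sub_smul, one_smul, Finset.sum_sub_distrib]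
      rw [hac]
    have hqL : ∑ v ∈ t, g v • v ∈ Lat n := by
      rw [hgq]
      refine (Lat n).sub_mem ((Lat n).sum_mem fun v hv => (ht1 v hv).1) ((Lat n).sub_mem hc
        ((Lat n).sum_mem fun v hv => kq_natsmul _ (ht1 v hv).1))
    have hqt : ∑ v ∈ t, g v • v ∈ t := by
      refine hempty _ hqL ?_
      rw [Finset.mem_convexHull']
      exact ⟨g, fun v hv => (hg0 v hv).le, hgs, rfl⟩
    refine hind _ hqt (kq_erase t _ hqt g (fun v hv => (hg0 v hv).le) hgs ?_ rfl)
    rw [← hgs, ← Finset.add_sum_erase t g hqt]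
    have h1 : (t.erase (∑ v ∈ t, g v • v)).Nonempty := by
      rw [← Finset.card_pos, Finset.card_erase_of_mem hqt]
      omega
    have h2 := Finset.sum_pos (fun v hv => hg0 v (Finset.mem_of_mem_erase hv)) h1
    linarith
  have hkm : k ≤ ∑ v ∈ t, m v := le_trans (Nat.le_mul_of_pos_left k hr) hkey
  obtain ⟨z, hz1, hz2⟩ := kq_split t m k hkm
  have hz2' : ∑ v ∈ t, (z v : ℝ) = k := by exact_mod_cast hz2
  refine ⟨∑ v ∈ t, (z v : ℝ) • v, (Lat n).sum_mem fun v hv => kq_natsmul _ (ht1 v hv).1, ?_, ?_⟩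
  · have := kq_cone (convex_convexHull ℝ S) hKne t (fun v hv => (ht1 v hv).2)
      (fun v => (z v : ℝ)) (fun v _ => Nat.cast_nonneg _)
    rwa [hz2'] at this
  · have h1 := kq_cone (convex_convexHull ℝ S) hKne t (fun v hv => (ht1 v hv).2)
      (fun v => a v - z v) (fun v hv => by
        have h2 := hma v hv
        have h3 : (z v : ℝ) ≤ m v := by exact_mod_cast hz1 v hv
        linarith)
    have h2 : ∑ v ∈ t, (a v - (z v : ℝ)) = (r : ℝ) * k := by
      rw [Finset.sum_sub_distrib, hasum, hz2', hNr]; ring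
    have h3 : ∑ v ∈ t, (a v - (z v : ℝ)) • v = c - ∑ v ∈ t, (z v : ℝ) • v := by
      simp only [sub_smul, Finset.sum_sub_distrib]
      rw [hac]
    rwa [h2, h3] at h1

/-- (KQ) lattice points of multiples of the convex hull of a set of lattice points which are
pairwise congruent modulo `l ≥ n - 1` decompose. -/
theorem kq_class {n l : ℕ} (hl : n ≤ l + 1) (T : Set (Fin n → ℝ)) (hT : ∀ v ∈ T, v ∈ Lat n)
    (hcong : ∀ v ∈ T, ∀ w ∈ T, ∃ u ∈ Lat n, w - v = (l : ℝ) • u) (r : ℕ) (hr : 1 ≤ r)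
    (c : Fin n → ℝ) (hc : c ∈ Lat n) (hcK : c ∈ ((r : ℝ) + 1) • convexHull ℝ T) :
    ∃ z ∈ Lat n, z ∈ convexHull ℝ T ∧ c - z ∈ (r : ℝ) • convexHull ℝ T := by
  classical
  obtain ⟨x, hx, hcx⟩ := Set.mem_smul_set.1 hcK
  have hTne : T.Nonempty := convexHull_nonempty_iff.1 ⟨x, hx⟩
  obtain ⟨p, hp⟩ := hTne
  let f : (Fin n → ℝ) →ᵃ[ℝ] (Fin n → ℝ) :=
    (l : ℝ) • AffineMap.id ℝ (Fin n → ℝ) + AffineMap.const ℝ (Fin n → ℝ) p
  have hf : ∀ q, f q = p + (l : ℝ) • q := by
    intro q
    simp only [f, AffineMap.coe_add, AffineMap.coe_smul, Pi.add_apply, Pi.smul_apply,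
      AffineMap.id_apply, AffineMap.const_apply]
    rw [add_comm]
  let S : Set (Fin n → ℝ) := {q | q ∈ Lat n ∧ p + (l : ℝ) • q ∈ T}
  have hST : f '' S = T := by
    ext w
    constructor
    · rintro ⟨q, hq, rfl⟩
      rw [hf]; exact hq.2
    · intro hw
      obtain ⟨u, hu, huw⟩ := hcong p hp w hw
      refine ⟨u, ⟨hu, ?_⟩, ?_⟩
      · rw [← huw, add_sub_cancel]; exact hw
      · rw [hf, ← huw, add_sub_cancel]
  have hconv : f '' convexHull ℝ S = convexHull ℝ T := by
    rw [AffineMap.image_convexHull, hST]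
  rw [← hconv] at hx
  obtain ⟨y, hy, hyx⟩ := hx
  rw [hf] at hyx
  have hc0 : c - ((r : ℝ) + 1) • p ∈ Lat n := by
    refine (Lat n).sub_mem hc ?_
    have := kq_natsmul (r + 1) (hT p hp)
    push_cast at this
    exact this
  obtain ⟨z, hzL, hz1, hz2⟩ := kq_main hl S (fun v hv => hv.1) r hr
    (c - ((r : ℝ) + 1) • p) hc0 (by
      refine Set.mem_smul_set.2 ⟨y, hy, ?_⟩
      rw [← hcx, ← hyx]
      module)
  obtain ⟨y1, hy1, hy1z⟩ := Set.mem_smul_set.1 hz1
  obtain ⟨y2, hy2, hy2z⟩ := Set.mem_smul_set.1 hz2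
  refine ⟨p + z, (Lat n).add_mem (hT p hp) hzL, ?_, ?_⟩
  · rw [← hconv]
    exact ⟨y1, hy1, by rw [hf, hy1z]⟩
  · rw [← hconv]
    refine Set.mem_smul_set.2 ⟨f y2, ⟨y2, hy2, rfl⟩, ?_⟩
    rw [hf, smul_add, smul_smul, hy2z]
    module

end MP81308f
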