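import Pool.Agent.Lib.MP_81308f_co.Opt

/-!
# Rounding inside a face

`RB U Z`: `Z` is a convex combination of centred boxes spanned by lattice bases of `U`. Every
translate of such a `Z` by a vector of `U` (seen from a lattice point) contains a lattice point.
`GG Γ P U r`: the real points `c` that split as `c = y1 + y2` with `y1 + Z ⊆ Γ` and
`y2 + Z ⊆ r P`.
-/

open scoped Pointwise BigOperators

namespace MP81308f

/-- The centred box of the vectors `B i`. -/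
def Zon {n d : ℕ} (B : Fin d → Fin n → ℝ) : Set (Fin n → ℝ) :=
  {x | ∃ t : Fin d → ℝ, (∀ i, |t i| ≤ 1 / 2) ∧ x = ∑ i, t i • B i}

/-- Convex combinations of centred boxes spanned by lattice bases of `U`. -/
inductive RB {n : ℕ} (U : Submodule ℝ (Fin n → ℝ)) : Set (Fin n → ℝ) → Prop
  | base (d : ℕ) (B : Fin d → Fin n → ℝ) (hd : Module.finrank ℝ U = d)
      (hL : ∀ i, B i ∈ Lat n) (hU : ∀ i, B i ∈ U) (hli : LinearIndependent ℝ B) : RB U (Zon B)
  | mix (a b : ℝ) (ha : 0 ≤ a) (hb : 0 ≤ b) (hab : a + b = 1) (Z Z' : Set (Fin n → ℝ))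
      (hZ : RB U Z) (hZ' : RB U Z') : RB U (a • Z + b • Z')

theorem round_weights {E : Type*} [Fintype E] {d : ℕ} (v : E → Fin d → ℝ) (p : E → ℝ)
    (hspan : ∃ B : Fin d → E, (Matrix.of fun i => v (B i)).det ≠ 0)
    (hdual : ∀ g : E → ℝ, (∀ e, 0 ≤ g e) → ∃ B : Fin d → E,
      (Matrix.of fun i => v (B i)).det ≠ 0 ∧ ∑ i, g (B i) ≤ ∑ e, p e * g e)
    (ε : ℝ) (hε : 0 < ε) :
    ∃ a : E → ℝ, (∀ e, 0 < a e) ∧ ∀ e, a e * QF (MA v a) (v e) ≤ p e + ε := by
  classical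
  let α : E → (E → ℝ) →ₗ[ℝ] ℝ := fun e => LinearMap.proj e
  let L : (E → ℝ) →ₗ[ℝ] ℝ := ∑ e, (p e + ε) • (LinearMap.proj e : (E → ℝ) →ₗ[ℝ] ℝ)
  have hL : ∀ g : E → ℝ, L g = ∑ e, (p e + ε) * g e := by
    intro g
    simp only [L, LinearMap.sum_apply, LinearMap.smul_apply, LinearMap.proj_apply, smul_eq_mul]
  let C : Set (E → ℝ) := {g | ∀ e, 0 ≤ g e}
  have hC : IsClosed C := by
    have : C = ⋂ e, {g : E → ℝ | 0 ≤ g e} := by
      ext g; simp [C]
    rw [this]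
    exact isClosed_iInter fun e => isClosed_le continuous_const (continuous_apply e)
  obtain ⟨a, ha, hopt⟩ := opt v α L C hC (fun e => le_rfl)
    (fun x hx y hy e => add_nonneg (hx e) (hy e))
    (fun t ht x hx e => mul_nonneg ht (hx e)) hspan (by
      intro g hg hg0
      obtain ⟨B, hB, hsum⟩ := hdual g hg
      refine ⟨B, hB, ?_⟩
      have h1 : 0 < ∑ e, g e := by
        refine lt_of_le_of_ne (Finset.sum_nonneg fun e _ => hg e) ?_
        intro h0
        apply hg0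
        funext e
        exact (Finset.sum_eq_zero_iff_of_nonneg (fun e _ => hg e)).1 h0.symm e (Finset.mem_univ e)
      have h2 : L g = ∑ e, p e * g e + ε * ∑ e, g e := by
        rw [hL, Finset.mul_sum, ← Finset.sum_add_distrib]
        exact Finset.sum_congr rfl fun e _ => by ring
      have h3 : ∑ i, α (B i) g = ∑ i, g (B i) := rfl
      rw [h2, h3]
      have := mul_pos hε h1
      linarith)
  refine ⟨a, ha, fun e => ?_⟩
  have h1 := hopt (Pi.single e 1) (by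
    intro e'
    by_cases h : e' = e
    · subst h; simp
    · rw [Pi.single_eq_of_ne h])
  rw [hL] at h1
  have h2 : ∑ e', a e' * QF (MA v a) (v e') * α e' (Pi.single e 1) = a e * QF (MA v a) (v e) := by
    rw [Finset.sum_eq_single e]
    · simp [α]
    · intro e' _ he'
      have : α e' (Pi.single e 1) = 0 := by
        show (Pi.single e (1 : ℝ) : E → ℝ) e' = 0
        rw [Pi.single_eq_of_ne he']
      rw [this, mul_zero]
    · intro h; exact absurd (Finset.mem_univ e) h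
  have h3 : ∑ e', (p e' + ε) * (Pi.single e (1 : ℝ) : E → ℝ) e' = p e + ε := by
    rw [Finset.sum_eq_single e]
    · simp
    · intro e' _ he'
      rw [Pi.single_eq_of_ne he', mul_zero]
    · intro h; exact absurd (Finset.mem_univ e) h
  rw [h2, h3] at h1
  exact h1

/-- The rounding theorem, explicit form. -/
theorem round_explicit {n d : ℕ} (U : Submodule ℝ (Fin n → ℝ)) (hd : Module.finrank ℝ U = d)
    {J : Type} [Fintype J] (θ : J → ℝ) (hθ : ∀ j, 0 ≤ θ j) (hθ1 : ∑ j, θ j = 1)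
    (B : J → Fin d → Fin n → ℝ) (hL : ∀ j i, B j i ∈ Lat n) (hU : ∀ j i, B j i ∈ U)
    (hli : ∀ j, LinearIndependent ℝ (B j)) (y : Fin n → ℝ) (hy : ∃ z0 ∈ Lat n, z0 - y ∈ U) :
    ∃ t : J → Fin d → ℝ, (∀ j i, |t j i| ≤ θ j / 2) ∧ y + ∑ j, ∑ i, t j i • B j i ∈ Lat n := by
  classical
  -- coordinates on `U`
  let bas : Module.Basis (Fin d) ℝ U := (Module.finBasisOfFinrankEq ℝ U hd)
  let ψ : (Fin d → ℝ) →ₗ[ℝ] (Fin n → ℝ) := U.subtype ∘ₗ bas.equivFun.symm.toLinearMap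
  have hψsurj : ∀ y ∈ U, ∃ x, ψ x = y := by
    intro y hy
    exact ⟨bas.equivFun ⟨y, hy⟩, by simp [ψ]⟩
  choose! pre hpre using hψsurj
  let v : J × Fin d → Fin d → ℝ := fun e => pre (B e.1 e.2)
  have hv : ∀ e, ψ (v e) = B e.1 e.2 := fun e => hpre _ (hU _ _)
  have hdet : ∀ j, (Matrix.of fun i => v (j, i)).det ≠ 0 := by
    intro j
    have h1 : LinearIndependent ℝ (fun i => v (j, i)) := by
      refine LinearIndependent.of_comp ψ ?_
      convert hli j using 1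
      funext i
      exact hv (j, i)
    have h2 : LinearIndependent ℝ (Matrix.of fun i => v (j, i)).row := h1
    rw [Matrix.linearIndependent_rows_iff_isUnit] at h2
    exact (Matrix.isUnit_iff_isUnit_det _).mp h2 |>.ne_zero
  obtain ⟨j0⟩ : Nonempty J := by
    by_contra h
    rw [not_nonempty_iff] at h
    simp at hθ1
  have hspan : ∃ B : Fin d → J × Fin d, (Matrix.of fun i => v (B i)).det ≠ 0 :=
    ⟨fun i => (j0, i), hdet j0⟩
  let p : J × Fin d → ℝ := fun e => θ e.1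
  have hdual : ∀ g : J × Fin d → ℝ, (∀ e, 0 ≤ g e) → ∃ B : Fin d → J × Fin d,
      (Matrix.of fun i => v (B i)).det ≠ 0 ∧ ∑ i, g (B i) ≤ ∑ e, p e * g e := by
    intro g _
    have h1 : ∑ e, p e * g e = ∑ j, θ j * ∑ i, g (j, i) := by
      rw [Fintype.sum_prod_type]
      exact Finset.sum_congr rfl fun j _ => by rw [Finset.mul_sum]
    have h2 : ∃ j, ∑ i, g (j, i) ≤ ∑ j, θ j * ∑ i, g (j, i) := by
      by_contra hcon
      push Not at hcon
      have h3 : ∑ j, θ j * (∑ j', θ j' * ∑ i, g (j', i)) < ∑ j, θ j * ∑ i, g (j, i) := by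
        obtain ⟨j1, hj1⟩ : ∃ j, 0 < θ j := by
          by_contra hc
          push Not at hc
          have : ∑ j, θ j = 0 := Finset.sum_eq_zero fun j _ => le_antisymm (hc j) (hθ j)
          rw [hθ1] at this
          exact one_ne_zero this
        refine Finset.sum_lt_sum (fun j _ => mul_le_mul_of_nonneg_left (hcon j).le (hθ j))
          ⟨j1, Finset.mem_univ _, mul_lt_mul_of_pos_left (hcon j1) hj1⟩
      rw [← Finset.sum_mul, hθ1, one_mul] at h3
      exact lt_irrefl _ h3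
    obtain ⟨j, hj⟩ := h2
    exact ⟨fun i => (j, i), hdet j, by rw [h1]; exact hj⟩
  -- rounding up to `ε`
  have hε : ∀ ε : ℝ, 0 < ε → ∃ t : J × Fin d → ℝ, (∀ e, |t e| ≤ (p e + ε) / 2) ∧
      y + ∑ e, t e • B e.1 e.2 ∈ Lat n := by
    intro ε hε
    obtain ⟨a, ha, hle⟩ := round_weights v p hspan hdual ε hε
    have hA : (MA v a).PosDef := MA_posDef v a ha hspan
    obtain ⟨z0, hz0, hz0y⟩ := hy
    obtain ⟨x, hx, hmin⟩ := near (MA v a) hA ψ y ⟨pre (z0 - y), by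
      rw [hpre _ hz0y]; simpa using hz0⟩
    obtain ⟨t, ht, htb⟩ := voronoi v a ha hspan x (by
      intro e
      constructor
      · apply hmin
        rw [map_add, hv, ← add_assoc]
        exact (Lat n).add_mem hx (hL _ _)
      · apply hmin
        rw [map_sub, hv, ← add_sub_assoc]
        exact (Lat n).sub_mem hx (hL _ _))
    refine ⟨t, fun e => (htb e).trans ?_, ?_⟩
    · have := hle e
      linarith
    · have : ∑ e, t e • B e.1 e.2 = ψ x := by
        rw [ht, map_sum]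
        exact Finset.sum_congr rfl fun e _ => by rw [map_smul, hv]
      rw [this]; exact hx
  -- the limit
  let S : ℕ → Set (J × Fin d → ℝ) := fun k =>
    {t | (∀ e, |t e| ≤ (p e + 1 / ((k : ℝ) + 1)) / 2) ∧ y + ∑ e, t e • B e.1 e.2 ∈ Lat n}
  have hScont : Continuous fun t : J × Fin d → ℝ => y + ∑ e, t e • B e.1 e.2 := by fun_prop
  have hSclosed : ∀ k, IsClosed (S k) := by
    intro k
    have : S k = (⋂ e, {t : J × Fin d → ℝ | |t e| ≤ (p e + 1 / ((k : ℝ) + 1)) / 2}) ∩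
        (fun t : J × Fin d → ℝ => y + ∑ e, t e • B e.1 e.2) ⁻¹' (Lat n : Set (Fin n → ℝ)) := by
      ext t; simp [S]
    rw [this]
    refine IsClosed.inter (isClosed_iInter fun e => ?_) ((mat_Lat_isClosed n).preimage hScont)
    exact isClosed_le (continuous_apply e).abs continuous_const
  have hSanti : ∀ k, S (k + 1) ⊆ S k := by
    rintro k t ⟨ht1, ht2⟩
    refine ⟨fun e => (ht1 e).trans ?_, ht2⟩
    have h1 : (1 : ℝ) / (((k + 1 : ℕ) : ℝ) + 1) ≤ 1 / ((k : ℝ) + 1) := by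
      apply one_div_le_one_div_of_le
      · positivity
      · push_cast; linarith
    linarith
  have hSne : ∀ k, (S k).Nonempty := fun k => hε _ (by positivity)
  have hScomp : IsCompact (S 0) := by
    refine Metric.isCompact_of_isClosed_isBounded (hSclosed 0) ?_
    refine (Metric.isBounded_closedBall (x := (0 : J × Fin d → ℝ)) (r := 1)).subset ?_
    rintro t ⟨ht, -⟩
    rw [mem_closedBall_zero_iff, pi_norm_le_iff_of_nonneg zero_le_one]
    intro e
    rw [Real.norm_eq_abs]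
    refine (ht e).trans ?_
    have hp1 : p e ≤ 1 := by
      show θ e.1 ≤ 1
      rw [← hθ1]
      exact Finset.single_le_sum (fun j _ => hθ j) (Finset.mem_univ _)
    have : (1 : ℝ) / (((0 : ℕ) : ℝ) + 1) = 1 := by norm_num
    rw [this]
    linarith
  obtain ⟨t, ht⟩ := IsCompact.nonempty_iInter_of_sequence_nonempty_isCompact_isClosed S hSanti
    hSne hScomp hSclosed
  rw [Set.mem_iInter] at ht
  refine ⟨fun j i => t (j, i), ?_, ?_⟩
  · intro j i
    refine le_of_forall_pos_le_add fun δ hδ => ?_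
    obtain ⟨k, hk⟩ := exists_nat_one_div_lt hδ
    have h1 := (ht k).1 (j, i)
    have h2 : p (j, i) = θ j := rfl
    rw [h2] at h1
    linarith
  · have h1 := (ht 0).2
    rw [Fintype.sum_prod_type] at h1
    exact h1

theorem rb_scale {a c t : ℝ} (ha : 0 ≤ a) (hc : 0 ≤ c) (h : |t| ≤ a * c) :
    ∃ s : ℝ, |s| ≤ c ∧ t = a * s := by
  rcases eq_or_lt_of_le ha with h0 | h0
  · refine ⟨0, by simpa using hc, ?_⟩
    rw [← h0, zero_mul] at h
    rw [mul_zero]
    exact abs_eq_zero.1 (le_antisymm h (abs_nonneg t))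
  · refine ⟨t / a, ?_, by field_simp⟩
    rw [abs_div, abs_of_pos h0, div_le_iff₀ h0, mul_comm]
    exact h

theorem rb_explicit {n d : ℕ} (U : Submodule ℝ (Fin n → ℝ)) (hd : Module.finrank ℝ U = d)
    (Z : Set (Fin n → ℝ)) (hZ : RB U Z) :
    ∃ (J : Type) (_ : Fintype J) (θ : J → ℝ) (B : J → Fin d → Fin n → ℝ), (∀ j, 0 ≤ θ j) ∧
      ∑ j, θ j = 1 ∧ (∀ j i, B j i ∈ Lat n) ∧ (∀ j i, B j i ∈ U) ∧
      (∀ j, LinearIndependent ℝ (B j)) ∧
      ∀ t : J → Fin d → ℝ, (∀ j i, |t j i| ≤ θ j / 2) → ∑ j, ∑ i, t j i • B j i ∈ Z := by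
  classical
  induction hZ with
  | base d' B hd' hL hU hli =>
    obtain rfl : d = d' := hd.symm.trans hd'
    refine ⟨Unit, inferInstance, fun _ => 1, fun _ => B, fun _ => zero_le_one, by simp,
      fun _ => hL, fun _ => hU, fun _ => hli, ?_⟩
    intro t ht
    refine ⟨t (), fun i => ht () i, by simp⟩
  | mix a b ha hb hab Z Z' _ _ ih ih' =>
    obtain ⟨J, hJ, θ, B, hθ, hθ1, hL, hU, hli, hmem⟩ := ih
    obtain ⟨J', hJ', θ', B', hθ', hθ1', hL', hU', hli', hmem'⟩ := ih'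
    refine ⟨J ⊕ J', inferInstance, Sum.elim (fun j => a * θ j) (fun j => b * θ' j),
      Sum.elim B B', ?_, ?_, ?_, ?_, ?_, ?_⟩
    · rintro (j | j)
      · exact mul_nonneg ha (hθ j)
      · exact mul_nonneg hb (hθ' j)
    · rw [Fintype.sum_sum_type]
      simp only [Sum.elim_inl, Sum.elim_inr]
      rw [← Finset.mul_sum, ← Finset.mul_sum, hθ1, hθ1', mul_one, mul_one, hab]
    · rintro (j | j) i
      · exact hL j i
      · exact hL' j i
    · rintro (j | j) i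
      · exact hU j i
      · exact hU' j i
    · rintro (j | j)
      · exact hli j
      · exact hli' j
    · intro t ht
      have h1 : ∀ j i, ∃ s : ℝ, |s| ≤ θ j / 2 ∧ t (Sum.inl j) i = a * s := by
        intro j i
        refine rb_scale ha (by have := hθ j; linarith) ?_
        have := ht (Sum.inl j) i
        simp only [Sum.elim_inl] at this
        linarith
      have h2 : ∀ j i, ∃ s : ℝ, |s| ≤ θ' j / 2 ∧ t (Sum.inr j) i = b * s := by
        intro j i
        refine rb_scale hb (by have := hθ' j; linarith) ?_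
        have := ht (Sum.inr j) i
        simp only [Sum.elim_inr] at this
        linarith
      choose s hs hst using h1
      choose s' hs' hst' using h2
      rw [Fintype.sum_sum_type]
      refine Set.mem_add.2 ⟨_, Set.smul_mem_smul_set (hmem s hs), _,
        Set.smul_mem_smul_set (hmem' s' hs'), ?_⟩
      simp only [Sum.elim_inl, Sum.elim_inr, hst, hst', Finset.smul_sum, smul_smul]

/-- Rounding: every point `y` of the affine space contains a lattice point in `y + Z`. -/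
theorem rb_round {n : ℕ} (U : Submodule ℝ (Fin n → ℝ)) (Z : Set (Fin n → ℝ)) (hZ : RB U Z)
    (y : Fin n → ℝ) (hy : ∃ z0 ∈ Lat n, z0 - y ∈ U) : ∃ z ∈ Lat n, z - y ∈ Z := by
  obtain ⟨J, hJ, θ, B, hθ, hθ1, hL, hU, hli, hmem⟩ := rb_explicit U rfl Z hZ
  obtain ⟨t, ht, hlat⟩ := round_explicit U rfl θ hθ hθ1 B hL hU hli y hy
  exact ⟨_, hlat, by rw [add_sub_cancel_left]; exact hmem t ht⟩

theorem zon_neg {n d : ℕ} (B : Fin d → Fin n → ℝ) : ∀ x ∈ Zon B, -x ∈ Zon B := by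
  rintro x ⟨t, ht, rfl⟩
  exact ⟨fun i => -t i, fun i => by rw [abs_neg]; exact ht i, by simp⟩

theorem rb_neg {n : ℕ} (U : Submodule ℝ (Fin n → ℝ)) (Z : Set (Fin n → ℝ)) (hZ : RB U Z) :
    ∀ x ∈ Z, -x ∈ Z := by
  induction hZ with
  | base d' B hd' hL hU hli => exact zon_neg B
  | mix a b ha hb hab Z Z' _ _ ih ih' =>
    rintro x hx
    obtain ⟨p, ⟨p', hp', rfl⟩, q, ⟨q', hq', rfl⟩, rfl⟩ := Set.mem_add.1 hx
    refine Set.mem_add.2 ⟨a • (-p'), Set.smul_mem_smul_set (ih _ hp'), b • (-q'),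
      Set.smul_mem_smul_set (ih' _ hq'), ?_⟩
    simp only [smul_neg]
    abel

theorem rb_zero_mem {n : ℕ} (U : Submodule ℝ (Fin n → ℝ)) (Z : Set (Fin n → ℝ)) (hZ : RB U Z) :
    (0 : Fin n → ℝ) ∈ Z := by
  induction hZ with
  | base d' B hd' hL hU hli => exact ⟨fun _ => 0, fun _ => by norm_num, by simp⟩
  | mix a b ha hb hab Z Z' _ _ ih ih' =>
    exact Set.mem_add.2 ⟨a • 0, Set.smul_mem_smul_set ih, b • 0, Set.smul_mem_smul_set ih',
      by simp⟩

/-- The covered set of the face `Γ` (with direction `U`). -/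
def GG {n : ℕ} (Γ P : Set (Fin n → ℝ)) (U : Submodule ℝ (Fin n → ℝ)) (r : ℝ) :
    Set (Fin n → ℝ) :=
  {c | ∃ y1 y2 : Fin n → ℝ, ∃ Z : Set (Fin n → ℝ), RB U Z ∧ c = y1 + y2 ∧
    (∀ x ∈ Z, y1 + x ∈ Γ) ∧ (∀ x ∈ Z, y2 + x ∈ r • P)}

theorem GG_convex {n : ℕ} (Γ P : Set (Fin n → ℝ)) (U : Submodule ℝ (Fin n → ℝ)) (r : ℝ)
    (hΓ : Convex ℝ Γ) (hP : Convex ℝ P) : Convex ℝ (GG Γ P U r) := by
  have hrP : Convex ℝ (r • P) := hP.smul r
  rintro c ⟨y1, y2, Z, hZ, rfl, h1, h2⟩ c' ⟨y1', y2', Z', hZ', rfl, h1', h2'⟩ a b ha hb hab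
  refine ⟨a • y1 + b • y1', a • y2 + b • y2', a • Z + b • Z', RB.mix a b ha hb hab Z Z' hZ hZ',
    ?_, ?_, ?_⟩
  · simp only [smul_add]; abel
  · intro x hx
    obtain ⟨p, ⟨p', hp', rfl⟩, q, ⟨q', hq', rfl⟩, rfl⟩ := Set.mem_add.1 hx
    have := hΓ (h1 p' hp') (h1' q' hq') ha hb hab
    convert this using 1
    simp only [smul_add]; abel
  · intro x hx
    obtain ⟨p, ⟨p', hp', rfl⟩, q, ⟨q', hq', rfl⟩, rfl⟩ := Set.mem_add.1 hx
    have := hrP (h2 p' hp') (h2' q' hq') ha hb hab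
    convert this using 1
    simp only [smul_add]; abel

theorem GG_decomp {n : ℕ} (Γ P : Set (Fin n → ℝ)) (U : Submodule ℝ (Fin n → ℝ)) (r : ℝ)
    (z0 : Fin n → ℝ) (hz0 : z0 ∈ Lat n) (hΓ : ∀ x ∈ Γ, x - z0 ∈ U) (c : Fin n → ℝ)
    (hc : c ∈ GG Γ P U r) (hcL : c ∈ Lat n) :
    ∃ z ∈ Lat n, z ∈ Γ ∧ c - z ∈ Lat n ∧ c - z ∈ r • P := by
  obtain ⟨y1, y2, Z, hZ, rfl, h1, h2⟩ := hc
  have h0 := h1 0 (rb_zero_mem U Z hZ)
  rw [add_zero] at h0
  obtain ⟨z, hz, hzy⟩ := rb_round U Z hZ y1 ⟨z0, hz0, by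
    have := U.neg_mem (hΓ y1 h0)
    rwa [neg_sub] at this⟩
  refine ⟨z, hz, ?_, (Lat n).sub_mem hcL hz, ?_⟩
  · have := h1 _ hzy
    rwa [add_sub_cancel] at this
  · have := h2 _ (rb_neg U Z hZ _ hzy)
    convert this using 1
    abel

/-- A point of `GG` from a single box. -/
theorem GG_of_box {n d : ℕ} (Γ P : Set (Fin n → ℝ)) (U : Submodule ℝ (Fin n → ℝ)) (r : ℝ)
    (hd : Module.finrank ℝ U = d) (B : Fin d → Fin n → ℝ) (hL : ∀ i, B i ∈ Lat n)
    (hU : ∀ i, B i ∈ U) (hli : LinearIndependent ℝ B) (y1 y2 : Fin n → ℝ)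
    (h1 : ∀ t : Fin d → ℝ, (∀ i, |t i| ≤ 1 / 2) → y1 + ∑ i, t i • B i ∈ Γ)
    (h2 : ∀ t : Fin d → ℝ, (∀ i, |t i| ≤ 1 / 2) → y2 + ∑ i, t i • B i ∈ r • P) :
    y1 + y2 ∈ GG Γ P U r := by
  refine ⟨y1, y2, Zon B, RB.base d B hd hL hU hli, rfl, ?_, ?_⟩
  · rintro x ⟨t, ht, rfl⟩; exact h1 t ht
  · rintro x ⟨t, ht, rfl⟩; exact h2 t ht

end MP81308f
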