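import Pool.Agent.Lib.MP_81308f_co.Pull
import Pool.Agent.Lib.MP_81308f_co.Core

open scoped Pointwise BigOperators

namespace MP81308f

theorem ind_dim_mono {n : ℕ} {T T' : Finset (Fin n → ℝ)} (h : T' ⊆ T) : dim T' ≤ dim T := by
  unfold dim
  apply Submodule.finrank_mono
  exact vectorSpan_mono ℝ (by exact_mod_cast h)

theorem ind_longEdges {n : ℕ} {l : ℝ} {T T' : Finset (Fin n → ℝ)} (hE : LongEdges l T)
    (hF : IsFace T T') : LongEdges l T' := by
  intro a ha b hb hab
  exact hE a (hF.1 ha) b (hF.1 hb) ⟨hab.1, hF.2.2.trans hab.2⟩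

/-- The dual condition, from the pulling inequality. -/
theorem ind_dual {n : ℕ} (κ l : ℝ) (hl : 0 < l) (hκ : 1 / l < κ) (T : Finset (Fin n → ℝ))
    (hT : T.Nonempty) (hd : (dim T : ℝ) ≤ l)
    (w : ℝ) (hw : 1 + κ * dim T < w) (c : Fin n → ℝ)
    (hc : c ∈ w • convexHull ℝ (T : Set (Fin n → ℝ)))
    (hprop : ∀ T', IsFace T T' → ∀ s : ℝ, 0 ≤ s → s ≤ w →
      c ∈ s • convexHull ℝ (T' : Set (Fin n → ℝ)) + (w - s) • convexHull ℝ (T : Set (Fin n → ℝ)) →
      κ * (dim T - dim T') ≤ 0 + (w - s))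
    (f : (Fin n → ℝ) →ₗ[ℝ] ℝ) (β : ℝ) (h0 : ∀ v ∈ T, 0 ≤ f v + β)
    (h1 : ∃ v ∈ T, f v + β ≠ 0) :
    ∃ v ∈ T, ∃ B ⊆ T, B.card = dim T ∧
      LinearIndepOn ℝ (fun b => b - v) (B : Set (Fin n → ℝ)) ∧ (∀ b ∈ B, IsEdge T v b) ∧
      ∑ b ∈ B, ((f v + β) + (f b + β)) < l * (f c + w * β) := by
  classical
  have hκ0 : 0 ≤ κ := le_trans (by positivity) hκ.le
  have hw0 : 0 ≤ w := by nlinarith [Nat.cast_nonneg (α := ℝ) (dim T)]
  obtain ⟨N, hN, hNmax⟩ := T.exists_max_image (fun v => f v + β) hT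
  obtain ⟨v, hv, hvx, B, hBT, hBc, hBi, hBe, hineq⟩ :=
    pull κ (dim T) β f hκ0 T hT 0 w (f N + β) c hw0 hc hprop (fun v hv => hNmax v hv) ⟨N, hN, rfl⟩
  refine ⟨v, hv, B, hBT, hBc, hBi, hBe, ?_⟩
  have hsum : ∑ b ∈ B, ((f v + β) + (f b + β)) = (dim T : ℝ) * (f v + β) + ∑ b ∈ B, (f b + β) := by
    rw [Finset.sum_add_distrib, Finset.sum_const, hBc, nsmul_eq_mul]
  rw [hsum]
  have hlκ : 1 < l * κ := by
    have := mul_lt_mul_of_pos_left hκ hl
    rwa [mul_one_div_cancel hl.ne'] at this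
  have hSg : 0 ≤ ∑ b ∈ B, (f b + β) := Finset.sum_nonneg fun b hb => h0 b (hBT hb)
  have hv0 := h0 v hv
  have hcoef : (dim T : ℝ) < l * (w - κ * dim T) := by
    have : l * 1 < l * (w - κ * dim T) := mul_lt_mul_of_pos_left (by linarith) hl
    linarith
  have hmain : κ * ∑ b ∈ B, (f b + β) + (w - κ * dim T) * (f v + β) ≤ f c + w * β := by
    have := hineq
    simp only [sub_self, zero_mul, zero_add, add_zero] at this
    exact this
  have hmain2 : l * κ * ∑ b ∈ B, (f b + β) + l * (w - κ * dim T) * (f v + β) ≤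
      l * (f c + w * β) := by
    have := mul_le_mul_of_nonneg_left hmain hl.le
    linarith
  by_contra hcon
  push Not at hcon
  have e1 : (l * κ - 1) * ∑ b ∈ B, (f b + β) +
      (l * (w - κ * dim T) - dim T) * (f v + β) ≤ 0 := by linarith
  have p1 : 0 ≤ (l * κ - 1) * ∑ b ∈ B, (f b + β) := mul_nonneg (by linarith) hSg
  have p2 : 0 ≤ (l * (w - κ * dim T) - dim T) * (f v + β) := mul_nonneg (by linarith) hv0
  have z1 : ∑ b ∈ B, (f b + β) = 0 := by
    have : (l * κ - 1) * ∑ b ∈ B, (f b + β) = 0 := by linarith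
    rcases mul_eq_zero.1 this with h | h
    · linarith
    · exact h
  have z2 : f v + β = 0 := by
    have : (l * (w - κ * dim T) - dim T) * (f v + β) = 0 := by linarith
    rcases mul_eq_zero.1 this with h | h
    · linarith
    · exact h
  have z3 : ∀ b ∈ B, f b + β = 0 := by
    intro b hb
    exact (Finset.sum_eq_zero_iff_of_nonneg (fun b hb => h0 b (hBT hb))).1 z1 b hb
  -- the span
  obtain ⟨p, hp, hp0⟩ := h1
  apply hp0
  have hspan : Submodule.span ℝ ((fun b => b - v) '' (B : Set (Fin n → ℝ))) =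
      vectorSpan ℝ (T : Set (Fin n → ℝ)) := by
    apply Submodule.eq_of_le_of_finrank_eq
    · rw [Submodule.span_le]
      rintro _ ⟨b, hb, rfl⟩
      exact vsub_mem_vectorSpan ℝ (by exact_mod_cast hBT hb) (by exact_mod_cast hv)
    · have h2 := hBi
      rw [LinearIndepOn] at h2
      have h3 := finrank_span_eq_card h2
      have h4 : Set.range (fun b : (B : Set (Fin n → ℝ)) => (b : Fin n → ℝ) - v) =
          ((fun b => b - v) '' (B : Set (Fin n → ℝ))) := by
        ext x
        simp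
      rw [h4] at h3
      rw [h3]
      simp [hBc, dim]
  have hpv : p - v ∈ Submodule.span ℝ ((fun b => b - v) '' (B : Set (Fin n → ℝ))) := by
    rw [hspan]
    exact vsub_mem_vectorSpan ℝ (by exact_mod_cast hp) (by exact_mod_cast hv)
  have hfz : f (p - v) = 0 := by
    have hle : Submodule.span ℝ ((fun b => b - v) '' (B : Set (Fin n → ℝ))) ≤ LinearMap.ker f := by
      rw [Submodule.span_le]
      rintro _ ⟨b, hb, rfl⟩
      simp only [SetLike.mem_coe, LinearMap.mem_ker, map_sub]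
      have := z3 b (by exact_mod_cast hb)
      linarith
    exact hle hpv
  rw [map_sub] at hfz
  linarith

/-- (IND) the main induction over faces. -/
theorem ind {n : ℕ} (κ l : ℝ) (hl : 0 < l) (hκ : 1 / l < κ) (T : Finset (Fin n → ℝ))
    (hT : T.Nonempty) (hTL : ∀ v ∈ T, v ∈ Lat n) (hE : LongEdges l T) (hd : (dim T : ℝ) ≤ l)
    (w : ℝ) (hw : 1 + κ * dim T < w) (c : Fin n → ℝ)
    (hc : c ∈ w • convexHull ℝ (T : Set (Fin n → ℝ))) :
    ∃ z ∈ Lat n, z ∈ convexHull ℝ (T : Set (Fin n → ℝ)) ∧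
      c - z ∈ (w - 1) • convexHull ℝ (T : Set (Fin n → ℝ)) := by
  classical
  have hκ0 : 0 ≤ κ := le_trans (by positivity) hκ.le
  induction' hN : T.card using Nat.strong_induction_on with N ih generalizing T w c
  by_cases hA : ∃ T', IsFace T T' ∧ T' ≠ T ∧
      c ∈ (w - κ * (dim T - dim T')) • convexHull ℝ (T' : Set (Fin n → ℝ)) +
        (κ * (dim T - dim T')) • convexHull ℝ (T : Set (Fin n → ℝ))
  · obtain ⟨T', hF, hne, hc'⟩ := hA
    obtain ⟨c1, hc1, c2, hc2, rfl⟩ := Set.mem_add.1 hc'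
    have hd' : (dim T' : ℝ) ≤ dim T := by exact_mod_cast ind_dim_mono hF.1
    have hcard : T'.card < N := by
      rw [← hN]
      exact Finset.card_lt_card (Finset.ssubset_iff_subset_ne.2 ⟨hF.1, hne⟩)
    obtain ⟨z, hz, hzP, hz2⟩ := ih T'.card hcard T' hF.2.1 (fun v hv => hTL v (hF.1 hv))
      (ind_longEdges hE hF) (le_trans hd' hd) (w - κ * (dim T - dim T')) (by nlinarith) c1 hc1 rfl
    have hmono : convexHull ℝ (T' : Set (Fin n → ℝ)) ⊆ convexHull ℝ (T : Set (Fin n → ℝ)) :=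
      convexHull_mono (by exact_mod_cast hF.1)
    refine ⟨z, hz, hmono hzP, ?_⟩
    have hsplit : w - 1 = (w - κ * (dim T - dim T') - 1) + κ * (dim T - dim T') := by ring
    have h1 : (0:ℝ) ≤ w - κ * (dim T - dim T') - 1 := by
      have : 0 ≤ κ * dim T' := mul_nonneg hκ0 (Nat.cast_nonneg _)
      nlinarith
    have h2 : (0:ℝ) ≤ κ * (dim T - dim T') := mul_nonneg hκ0 (by linarith)
    rw [hsplit, (convex_convexHull ℝ _).add_smul h1 h2]
    refine Set.mem_add.2 ⟨c1 - z, ?_, c2, hc2, by abel⟩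
    exact Set.smul_set_mono hmono hz2
  · push Not at hA
    have hprop : ∀ T', IsFace T T' → ∀ s : ℝ, 0 ≤ s → s ≤ w →
        c ∈ s • convexHull ℝ (T' : Set (Fin n → ℝ)) +
          (w - s) • convexHull ℝ (T : Set (Fin n → ℝ)) →
        κ * (dim T - dim T') ≤ 0 + (w - s) := by
      intro T' hF s hs0 hsw hcs
      by_cases hTT : T' = T
      · subst hTT
        simp only [sub_self, mul_zero, zero_add]
        linarith
      by_contra hcon
      push Not at hcon
      apply hA T' hF hTT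
      have hd' : (dim T' : ℝ) ≤ dim T := by exact_mod_cast ind_dim_mono hF.1
      set w' := w - κ * (dim T - dim T') with hw'
      have hw'0 : 0 ≤ w' := by
        have : 0 ≤ κ * dim T' := mul_nonneg hκ0 (Nat.cast_nonneg _)
        nlinarith
      have hsw' : w' ≤ s := by linarith
      obtain ⟨x, hx, y, hy, rfl⟩ := Set.mem_add.1 hcs
      obtain ⟨p, hp, rfl⟩ := hx
      have hmono : convexHull ℝ (T' : Set (Fin n → ℝ)) ⊆ convexHull ℝ (T : Set (Fin n → ℝ)) :=
        convexHull_mono (by exact_mod_cast hF.1)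
      refine Set.mem_add.2 ⟨w' • p, Set.smul_mem_smul_set hp, (s - w') • p + y, ?_, ?_⟩
      · have hsp : κ * (dim T - dim T') = (s - w') + (w - s) := by rw [hw']; ring
        rw [hsp, (convex_convexHull ℝ _).add_smul (by linarith) (by linarith)]
        exact Set.add_mem_add (Set.smul_mem_smul_set (hmono hp)) hy
      · show w' • p + ((s - w') • p + y) = s • p + y
        rw [← add_assoc, ← add_smul]
        congr 2
        ring
    -- the edges
    let E := {p : (T ×ˢ T : Finset ((Fin n → ℝ) × (Fin n → ℝ))) // IsEdge T p.1.1 p.1.2}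
    have hEm : ∀ e : E, e.1.1.1 ∈ T ∧ e.1.1.2 ∈ T := fun e => Finset.mem_product.1 e.1.2
    choose k hk u hu hab using fun e : E => hE e.1.1.1 (hEm e).1 e.1.1.2 (hEm e).2 e.2
    refine core T hT hTL (E := E) (fun e => e.1.1.1) (fun e => e.1.1.2) u k l w
      (fun e => (hEm e).1) (fun e => (hEm e).2) hu hk hab hl hd ?_ c hc ?_
    · have : dim T / l ≤ κ * dim T := by
        rw [div_eq_mul_one_div, mul_comm]
        exact mul_le_mul_of_nonneg_right hκ.le (Nat.cast_nonneg _)
      linarith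
    · intro f β h0 h1
      obtain ⟨v, hv, B, hBT, hBc, hBi, hBe, hlt⟩ :=
        ind_dual κ l hl hκ T hT hd w hw c hc hprop f β h0 h1
      let eB : Fin (dim T) ≃ B := (Fin.castOrderIso hBc.symm).toEquiv.trans B.equivFin.symm
      let g : Fin (dim T) → E := fun i =>
        ⟨⟨(v, (eB i : Fin n → ℝ)), Finset.mem_product.2 ⟨hv, hBT (eB i).2⟩⟩, hBe _ (eB i).2⟩
      refine ⟨g, ?_, ?_⟩
      · have h2 : LinearIndependent ℝ (fun i : Fin (dim T) => (eB i : Fin n → ℝ) - v) := by
          have h3 : LinearIndependent ℝ (fun b : (B : Set (Fin n → ℝ)) => (b : Fin n → ℝ) - v) := hBi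
          exact h3.comp (fun i => (⟨(eB i : Fin n → ℝ), (eB i).2⟩ : (B : Set (Fin n → ℝ)))) (by
            intro i j hij
            apply eB.injective
            have := congrArg Subtype.val hij
            exact Subtype.ext this)
        have hk0 : ∀ i, k (g i) ≠ 0 := fun i => (lt_of_lt_of_le hl (hk (g i))).ne'
        have h4 : (fun i => u (g i)) = fun i => (Units.mk0 (k (g i)) (hk0 i))⁻¹ • ((eB i : Fin n → ℝ) - v) := by
          funext i
          have := hab (g i)
          rw [eq_inv_smul_iff]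
          rw [Units.smul_mk0]
          exact this.symm
        rw [h4]
        exact h2.units_smul (fun i => (Units.mk0 (k (g i)) (hk0 i))⁻¹)
      · have : ∑ i, ((f v + β) + (f (eB i : Fin n → ℝ) + β)) = ∑ b ∈ B, ((f v + β) + (f b + β)) := by
          rw [← Finset.sum_coe_sort B]
          exact Fintype.sum_equiv eB _ _ (fun i => rfl)
        calc _ = ∑ i, ((f v + β) + (f (eB i : Fin n → ℝ) + β)) := rfl
          _ < _ := by rw [this]; exact hlt

theorem ind_finite {n : ℕ} (R : ℝ) : {z : Fin n → ℝ | z ∈ Lat n ∧ ∀ i, |z i| ≤ R}.Finite := by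
  have h1 : (Set.pi Set.univ (fun _ : Fin n => Set.Icc (-⌈R⌉) ⌈R⌉)).Finite :=
    Set.Finite.pi' (fun _ => Set.finite_Icc _ _) |>.subset (by
      intro x hx i
      exact hx i (Set.mem_univ i))
  refine (h1.image (fun (k : Fin n → ℤ) (i : Fin n) => ((k i : ℤ) : ℝ))).subset ?_
  rintro z ⟨hz, hzR⟩
  choose k hk using hz
  refine ⟨k, ?_, ?_⟩
  · intro i _
    have := hzR i
    rw [hk i] at this
    obtain ⟨h1, h2⟩ := abs_le.1 this
    constructor
    · have : (-(⌈R⌉ : ℝ)) ≤ k i := by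
        have := Int.le_ceil R
        linarith
      exact_mod_cast this
    · have : (k i : ℝ) ≤ ⌈R⌉ := h2.trans (Int.le_ceil R)
      exact_mod_cast this
  · funext i
    exact (hk i).symm

theorem ind_finite' {n : ℕ} (T : Finset (Fin n → ℝ)) :
    {z : Fin n → ℝ | z ∈ Lat n ∧ z ∈ convexHull ℝ (T : Set (Fin n → ℝ))}.Finite := by
  have hb : Bornology.IsBounded (convexHull ℝ (T : Set (Fin n → ℝ))) :=
    isBounded_convexHull.2 T.finite_toSet.isBounded
  obtain ⟨R, hR⟩ := hb.exists_norm_le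
  refine (ind_finite (n := n) R).subset ?_
  rintro z ⟨hz, hzP⟩
  refine ⟨hz, fun i => ?_⟩
  have := norm_le_pi_norm z i
  rw [Real.norm_eq_abs] at this
  exact this.trans (hR z hzP)

/-- (LIM) the limit case. -/
theorem main_real {n : ℕ} (l : ℝ) (hl : 0 < l) (T : Finset (Fin n → ℝ))
    (hT : T.Nonempty) (hTL : ∀ v ∈ T, v ∈ Lat n) (hE : LongEdges l T) (hd : (dim T : ℝ) ≤ l)
    (w : ℝ) (hw1 : 1 < w) (hw : 1 + dim T / l ≤ w) (c : Fin n → ℝ)
    (hc : c ∈ w • convexHull ℝ (T : Set (Fin n → ℝ))) :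
    ∃ z ∈ Lat n, z ∈ convexHull ℝ (T : Set (Fin n → ℝ)) ∧
      c - z ∈ (w - 1) • convexHull ℝ (T : Set (Fin n → ℝ)) := by
  classical
  set P := convexHull ℝ (T : Set (Fin n → ℝ)) with hP
  have hPclosed : IsClosed P := T.finite_toSet.isClosed_convexHull (𝕜 := ℝ)
  by_contra hcon
  push Not at hcon
  obtain ⟨p, hp, rfl⟩ := hc
  set d : ℝ := (dim T : ℝ) with hdd
  have hd0 : 0 ≤ d := Nat.cast_nonneg _
  let W : ℝ → ℝ := fun ε => w + (d + 1) * ε / l
  let F : (Fin n → ℝ) → ℝ → (Fin n → ℝ) := fun z ε => (W ε - 1)⁻¹ • (W ε • p - z)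
  have hW0 : W 0 = w := by simp [W]
  have hev : ∀ z ∈ {z : Fin n → ℝ | z ∈ Lat n ∧ z ∈ P}, ∀ᶠ j : ℕ in Filter.atTop,
      F z (1 / ((j : ℝ) + 1)) ∉ P := by
    rintro z ⟨hz, hzP⟩
    have hz0 : F z 0 ∉ P := by
      intro hmem
      apply hcon z hz hzP
      refine ⟨F z 0, hmem, ?_⟩
      show (w - 1) • F z 0 = w • p - z
      simp only [F, hW0]
      rw [smul_smul, mul_inv_cancel₀ (by linarith), one_smul]
    have hcont : ContinuousAt (F z) 0 := by
      have hWc : ContinuousAt W 0 := by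
        apply Continuous.continuousAt
        fun_prop
      have h1 : ContinuousAt (fun ε => (W ε - 1)⁻¹) 0 := by
        apply ContinuousAt.inv₀ (hWc.sub continuousAt_const)
        show W 0 - 1 ≠ 0
        rw [hW0]; linarith
      have h2 : ContinuousAt (fun ε => W ε • p - z) 0 := by
        apply ContinuousAt.sub _ continuousAt_const
        exact Filter.Tendsto.smul hWc tendsto_const_nhds
      exact Filter.Tendsto.smul h1 h2
    have htend : Filter.Tendsto (fun j : ℕ => F z (1 / ((j : ℝ) + 1))) Filter.atTop (nhds (F z 0)) :=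
      hcont.tendsto.comp tendsto_one_div_add_atTop_nhds_zero_nat
    exact htend.eventually (hPclosed.isOpen_compl.mem_nhds hz0)
  have hall := (Filter.eventually_all_finite (ind_finite' T)).2 hev
  obtain ⟨j, hj⟩ := hall.exists
  set ε : ℝ := 1 / ((j : ℝ) + 1) with hε
  have hε0 : 0 < ε := by rw [hε]; positivity
  have hWε : 1 < W ε := by
    have : 0 ≤ (d + 1) * ε / l := by positivity
    show 1 < w + (d + 1) * ε / l
    linarith
  have hκ : 1 / l < (1 + ε) / l := by
    apply div_lt_div_of_pos_right _ hl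
    linarith
  have hWκ : 1 + (1 + ε) / l * d < W ε := by
    show 1 + (1 + ε) / l * d < w + (d + 1) * ε / l
    have h1 : (1 + ε) / l * d = d / l + d * ε / l := by ring
    have h2 : (d + 1) * ε / l = d * ε / l + ε / l := by ring
    have h3 : 0 < ε / l := by positivity
    rw [h1, h2]
    linarith
  obtain ⟨z, hz, hzP, hz2⟩ := ind ((1 + ε) / l) l hl hκ T hT hTL hE hd (W ε) hWκ (W ε • p)
    (Set.smul_mem_smul_set hp)
  apply hj z ⟨hz, hzP⟩
  obtain ⟨y, hy, hy2⟩ := hz2
  have : F z ε = y := by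
    simp only [F]
    rw [← hy2]
    show (W ε - 1)⁻¹ • ((W ε - 1) • y) = y
    rw [smul_smul, inv_mul_cancel₀ (by linarith), one_smul]
  rw [this]
  exact hy

end MP81308f
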