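import Pool.Agent.Lib.MP_81308f_co.Defs

open scoped Pointwise BigOperators

namespace MP81308f

/-- A positive semidefinite matrix is `Bᵀ B`. -/
theorem mat_factor {d : ℕ} (A : Matrix (Fin d) (Fin d) ℝ) (hA : A.PosSemidef) :
    ∃ B : Matrix (Fin d) (Fin d) ℝ, A = B.conjTranspose * B := by
  open scoped MatrixOrder in
  exact (CStarAlgebra.nonneg_iff_eq_star_mul_self).1 hA.nonneg

/-- For a positive semidefinite matrix `det S ≤ exp (tr S - d)`. -/
theorem mat_det_le_exp_one {d : ℕ} (S : Matrix (Fin d) (Fin d) ℝ) (hS : S.PosSemidef) :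
    S.det ≤ Real.exp (S.trace - d) := by
  rw [hS.isHermitian.det_eq_prod_eigenvalues, hS.isHermitian.trace_eq_sum_eigenvalues]
  have h1 : Real.exp ((∑ i, (hS.isHermitian.eigenvalues i : ℝ)) - d) =
      ∏ i : Fin d, Real.exp (hS.isHermitian.eigenvalues i - 1) := by
    rw [← Real.exp_sum]
    congr 1
    rw [Finset.sum_sub_distrib]
    simp
  refine le_trans ?_ (le_of_eq h1.symm)
  apply Finset.prod_le_prod
  · intro i _
    exact hS.eigenvalues_nonneg i
  · intro i _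
    have := Real.add_one_le_exp (hS.isHermitian.eigenvalues i - 1)
    simp only [RCLike.ofReal_real_eq_id, id_eq]
    linarith

/-- (AMGM) -/
theorem det_le_exp {d : ℕ} (A A' : Matrix (Fin d) (Fin d) ℝ) (hA : A.PosDef)
    (hA' : A'.PosSemidef) : A'.det ≤ A.det * Real.exp ((A⁻¹ * A').trace - d) := by
  obtain ⟨B, hB⟩ := mat_factor A⁻¹ hA.inv.posSemidef
  have hS : (B * A' * B.conjTranspose).PosSemidef := hA'.mul_mul_conjTranspose_same B
  have h1 := mat_det_le_exp_one _ hS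
  have htr : (B * A' * B.conjTranspose).trace = (A⁻¹ * A').trace := by
    rw [Matrix.trace_mul_comm, ← Matrix.mul_assoc, ← hB]
  have hdet : (B * A' * B.conjTranspose).det = A⁻¹.det * A'.det := by
    rw [hB, Matrix.det_mul, Matrix.det_mul, Matrix.det_mul]
    ring
  have hpos : 0 < A.det := hA.det_pos
  have hinv : A⁻¹.det = (A.det)⁻¹ := by
    rw [Matrix.det_nonsing_inv, Ring.inverse_eq_inv']
  rw [htr, hdet, hinv] at h1
  have h2 : A'.det = A.det * ((A.det)⁻¹ * A'.det) := by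
    field_simp
  rw [h2]
  exact mul_le_mul_of_nonneg_left h1 hpos.le

/-- The quadratic form of `MA`. -/
theorem mat_MA_mulVec {E : Type*} [Fintype E] {d : ℕ} (v : E → Fin d → ℝ) (a : E → ℝ)
    (x : Fin d → ℝ) : (MA v a).mulVec x = ∑ e, (a e * (v e ⬝ᵥ x)) • v e := by
  unfold MA
  rw [Matrix.sum_mulVec]
  refine Finset.sum_congr rfl fun e _ => ?_
  rw [Matrix.smul_mulVec, Matrix.vecMulVec_mulVec]
  ext i
  simp only [Pi.smul_apply, MulOpposite.smul_eq_mul_unop, MulOpposite.unop_op, smul_eq_mul]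
  ring

theorem mat_MA_quad {E : Type*} [Fintype E] {d : ℕ} (v : E → Fin d → ℝ) (a : E → ℝ)
    (x y : Fin d → ℝ) : x ⬝ᵥ ((MA v a).mulVec y) = ∑ e, a e * ((v e ⬝ᵥ x) * (v e ⬝ᵥ y)) := by
  rw [mat_MA_mulVec, dotProduct_sum]
  refine Finset.sum_congr rfl fun e _ => ?_
  rw [dotProduct_smul, dotProduct_comm x (v e), smul_eq_mul]
  ring

theorem mat_MA_isHermitian {E : Type*} [Fintype E] {d : ℕ} (v : E → Fin d → ℝ) (a : E → ℝ) :
    (MA v a).IsHermitian := by
  ext i j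
  simp only [MA, Matrix.conjTranspose_apply, Matrix.sum_apply, Matrix.smul_apply,
    Matrix.vecMulVec_apply, smul_eq_mul, star_trivial]
  exact Finset.sum_congr rfl fun e _ => by ring

/-- (VOR1) `∑ a_e v_e v_eᵀ` is positive definite if the `v_e` span. -/
theorem MA_posDef {E : Type*} [Fintype E] {d : ℕ} (v : E → Fin d → ℝ) (a : E → ℝ)
    (ha : ∀ e, 0 < a e) (hspan : ∃ B : Fin d → E, (Matrix.of fun i => v (B i)).det ≠ 0) :
    (MA v a).PosDef := by
  refine Matrix.PosDef.of_dotProduct_mulVec_pos (mat_MA_isHermitian v a) ?_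
  intro x hx
  rw [star_trivial, mat_MA_quad]
  have hnn : ∀ e ∈ (Finset.univ : Finset E), 0 ≤ a e * ((v e ⬝ᵥ x) * (v e ⬝ᵥ x)) :=
    fun e _ => mul_nonneg (ha e).le (mul_self_nonneg _)
  refine lt_of_le_of_ne (Finset.sum_nonneg hnn) ?_
  intro h0
  have h1 := (Finset.sum_eq_zero_iff_of_nonneg hnn).1 h0.symm
  have h2 : ∀ e, v e ⬝ᵥ x = 0 := by
    intro e
    have := h1 e (Finset.mem_univ e)
    rcases mul_eq_zero.1 this with h | h
    · exact absurd h (ha e).ne'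
    · exact mul_self_eq_zero.1 h
  obtain ⟨B, hB⟩ := hspan
  apply hx
  have h3 : (Matrix.of fun i => v (B i)).mulVec x = 0 := by
    ext i
    exact h2 (B i)
  exact Matrix.eq_zero_of_mulVec_eq_zero hB h3

/-- (VOR2) trace of `A⁻¹ A'`. -/
theorem trace_inv_mul_MA {E : Type*} [Fintype E] {d : ℕ} (v : E → Fin d → ℝ) (a' : E → ℝ)
    (A : Matrix (Fin d) (Fin d) ℝ) :
    (A⁻¹ * MA v a').trace = ∑ e, a' e * QF A (v e) := by
  unfold MA QF
  rw [Matrix.mul_sum, Matrix.trace_sum]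
  refine Finset.sum_congr rfl fun e _ => ?_
  rw [Matrix.mul_smul, Matrix.trace_smul, Matrix.mul_vecMulVec, Matrix.trace_vecMulVec,
    dotProduct_comm, smul_eq_mul]

theorem mat_inv_symm {d : ℕ} (A : Matrix (Fin d) (Fin d) ℝ) (hA : A.IsHermitian)
    (x y : Fin d → ℝ) : x ⬝ᵥ (A⁻¹.mulVec y) = y ⬝ᵥ (A⁻¹.mulVec x) := by
  have h1 : (A⁻¹).transpose = A⁻¹ := by
    have := hA.inv
    simpa [Matrix.IsHermitian, Matrix.conjTranspose_eq_transpose_of_trivial] using this
  rw [dotProduct_comm, Matrix.dotProduct_mulVec, ← Matrix.mulVec_transpose, h1]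

/-- (VOR3) the Voronoi inequality gives the zonotope representation. -/
theorem voronoi {E : Type*} [Fintype E] {d : ℕ} (v : E → Fin d → ℝ) (a : E → ℝ)
    (ha : ∀ e, 0 < a e) (hspan : ∃ B : Fin d → E, (Matrix.of fun i => v (B i)).det ≠ 0)
    (x : Fin d → ℝ)
    (hx : ∀ e, QF (MA v a) x ≤ QF (MA v a) (x + v e) ∧ QF (MA v a) x ≤ QF (MA v a) (x - v e)) :
    ∃ t : E → ℝ, x = ∑ e, t e • v e ∧ ∀ e, |t e| ≤ a e * QF (MA v a) (v e) / 2 := by
  have hA : (MA v a).PosDef := MA_posDef v a ha hspan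
  have hsymm := mat_inv_symm (MA v a) (mat_MA_isHermitian v a)
  refine ⟨fun e => a e * (v e ⬝ᵥ ((MA v a)⁻¹.mulVec x)), ?_, ?_⟩
  · have h1 := mat_MA_mulVec v a ((MA v a)⁻¹.mulVec x)
    rw [Matrix.mulVec_mulVec, Matrix.mul_nonsing_inv _ ((Matrix.isUnit_iff_isUnit_det _).1 hA.isUnit),
      Matrix.one_mulVec] at h1
    exact h1
  · intro e
    obtain ⟨h1, h2⟩ := hx e
    have e1 : QF (MA v a) (x + v e) = QF (MA v a) x + 2 * (v e ⬝ᵥ ((MA v a)⁻¹.mulVec x))
        + QF (MA v a) (v e) := by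
      unfold QF
      rw [Matrix.mulVec_add, dotProduct_add, add_dotProduct, add_dotProduct,
        hsymm x (v e)]
      ring
    have e2 : QF (MA v a) (x - v e) = QF (MA v a) x - 2 * (v e ⬝ᵥ ((MA v a)⁻¹.mulVec x))
        + QF (MA v a) (v e) := by
      unfold QF
      rw [Matrix.mulVec_sub, dotProduct_sub, sub_dotProduct, sub_dotProduct,
        hsymm x (v e)]
      ring
    rw [e1] at h1
    rw [e2] at h2
    rw [abs_mul, abs_of_pos (ha e), mul_div_assoc]
    apply mul_le_mul_of_nonneg_left _ (ha e).le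
    rw [abs_le]
    constructor <;> linarith

theorem mat_QF_continuous {d : ℕ} (A : Matrix (Fin d) (Fin d) ℝ) : Continuous (QF A) := by
  unfold QF
  simp only [dotProduct, Matrix.mulVec]
  fun_prop

theorem mat_QF_smul {d : ℕ} (A : Matrix (Fin d) (Fin d) ℝ) (c : ℝ) (x : Fin d → ℝ) :
    QF A (c • x) = c ^ 2 * QF A x := by
  unfold QF
  rw [Matrix.mulVec_smul, dotProduct_smul, smul_dotProduct, smul_eq_mul, smul_eq_mul]
  ring

/-- Coercivity of the quadratic form. -/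
theorem mat_QF_coercive {d : ℕ} (A : Matrix (Fin d) (Fin d) ℝ) (hA : A.PosDef) :
    ∃ c : ℝ, 0 < c ∧ ∀ x : Fin d → ℝ, c * ‖x‖ ^ 2 ≤ QF A x := by
  have hpos : ∀ x : Fin d → ℝ, x ≠ 0 → 0 < QF A x := by
    intro x hx
    have := hA.inv.dotProduct_mulVec_pos hx
    rwa [star_trivial] at this
  by_cases hne : (Metric.sphere (0 : Fin d → ℝ) 1).Nonempty
  · obtain ⟨x0, hx0, hmin⟩ := (isCompact_sphere (0 : Fin d → ℝ) 1).exists_isMinOn hne
      (mat_QF_continuous A).continuousOn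
    have hx0' : x0 ≠ 0 := by
      rintro rfl
      simp at hx0
    refine ⟨QF A x0, hpos x0 hx0', ?_⟩
    intro x
    by_cases hx : x = 0
    · subst hx
      simp [QF]
    · have hn : 0 < ‖x‖ := norm_pos_iff.2 hx
      have h1 : ‖x‖⁻¹ • x ∈ Metric.sphere (0 : Fin d → ℝ) 1 := by
        rw [mem_sphere_zero_iff_norm, norm_smul, norm_inv, norm_norm, inv_mul_cancel₀ hn.ne']
      have h2 : QF A x0 ≤ QF A (‖x‖⁻¹ • x) := hmin h1
      rw [mat_QF_smul] at h2
      have h3 : QF A x = ‖x‖ ^ 2 * ((‖x‖⁻¹) ^ 2 * QF A x) := by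
        field_simp
      rw [h3, mul_comm]
      exact mul_le_mul_of_nonneg_left h2 (by positivity)
  · refine ⟨1, one_pos, ?_⟩
    intro x
    have hx : x = 0 := by
      by_contra hx
      have hn : 0 < ‖x‖ := norm_pos_iff.2 hx
      apply hne
      refine ⟨‖x‖⁻¹ • x, ?_⟩
      rw [mem_sphere_zero_iff_norm, norm_smul, norm_inv, norm_norm, inv_mul_cancel₀ hn.ne']
    subst hx
    simp [QF]

theorem mat_Lat_isClosed (n : ℕ) : IsClosed (Lat n : Set (Fin n → ℝ)) := by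
  have h : (Lat n : Set (Fin n → ℝ)) = ⋂ i : Fin n, (fun x : Fin n → ℝ => x i) ⁻¹'
      (Set.range (fun k : ℤ => (k : ℝ))) := by
    ext x
    simp only [SetLike.mem_coe, Set.mem_iInter, Set.mem_preimage, Set.mem_range]
    constructor
    · intro hx i
      obtain ⟨k, hk⟩ := hx i
      exact ⟨k, hk.symm⟩
    · intro hx i
      obtain ⟨k, hk⟩ := hx i
      exact ⟨k, hk.symm⟩
  rw [h]
  refine isClosed_iInter fun i => ?_
  exact Int.isClosedEmbedding_coe_real.isClosed_range.preimage (continuous_apply i)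

/-- (NEAR) a point of the closed set `{x | y + ψ x ∈ Lat}` minimizing the quadratic form. -/
theorem near {n d : ℕ} (A : Matrix (Fin d) (Fin d) ℝ) (hA : A.PosDef)
    (ψ : (Fin d → ℝ) →ₗ[ℝ] (Fin n → ℝ)) (y : Fin n → ℝ)
    (hne : ∃ x, y + ψ x ∈ Lat n) :
    ∃ x, y + ψ x ∈ Lat n ∧ ∀ x', y + ψ x' ∈ Lat n → QF A x ≤ QF A x' := by
  obtain ⟨c, hc, hcoer⟩ := mat_QF_coercive A hA
  obtain ⟨x1, hx1⟩ := hne
  have hcont : Continuous (fun x : Fin d → ℝ => y + ψ x) :=
    continuous_const.add (LinearMap.continuous_of_finiteDimensional ψ)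
  have hclosed : IsClosed {x : Fin d → ℝ | y + ψ x ∈ Lat n} :=
    (mat_Lat_isClosed n).preimage hcont
  set R : ℝ := Real.sqrt (QF A x1 / c) with hR
  have hcomp : IsCompact ({x : Fin d → ℝ | y + ψ x ∈ Lat n} ∩ Metric.closedBall 0 R) :=
    (isCompact_closedBall (0 : Fin d → ℝ) R).inter_left hclosed
  have hball : ∀ x : Fin d → ℝ, QF A x ≤ QF A x1 → x ∈ Metric.closedBall (0 : Fin d → ℝ) R := by
    intro x hx
    rw [mem_closedBall_zero_iff, hR]
    apply Real.le_sqrt_of_sq_le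
    rw [le_div_iff₀ hc, mul_comm]
    exact (hcoer x).trans hx
  obtain ⟨x, hx, hmin⟩ := hcomp.exists_isMinOn ⟨x1, hx1, hball x1 le_rfl⟩
    (mat_QF_continuous A).continuousOn
  refine ⟨x, hx.1, ?_⟩
  intro x' hx'
  by_cases h : QF A x' ≤ QF A x1
  · exact hmin ⟨hx', hball x' h⟩
  · have h1 : QF A x ≤ QF A x1 := hmin ⟨hx1, hball x1 le_rfl⟩
    exact h1.trans (not_le.1 h).le

end MP81308f
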