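import Pool.Agent.Lib.MP_81308f_co.Mat

open scoped Pointwise BigOperators

namespace MP81308f

theorem opt_QF_nonneg {d : ℕ} {A : Matrix (Fin d) (Fin d) ℝ} (hA : A.PosDef) (x : Fin d → ℝ) :
    0 ≤ QF A x := by
  have h := hA.inv.posSemidef.dotProduct_mulVec_nonneg x
  simpa [QF] using h

theorem opt_trace_self {E : Type*} [Fintype E] {d : ℕ} (v : E → Fin d → ℝ) (a : E → ℝ)
    (hA : (MA v a).PosDef) : ∑ e, a e * QF (MA v a) (v e) = (d : ℝ) := by
  rw [← trace_inv_mul_MA, Matrix.nonsing_inv_mul _ (isUnit_iff_ne_zero.2 hA.det_pos.ne'),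
    Matrix.trace_one, Fintype.card_fin]

theorem opt_MA_sq {d : ℕ} (M : Matrix (Fin d) (Fin d) ℝ) (a : Fin d → ℝ) :
    MA (fun i => M i) a = M.transpose * Matrix.diagonal a * M := by
  ext j k
  rw [Matrix.mul_apply]
  simp only [MA, Matrix.sum_apply, Matrix.smul_apply, Matrix.vecMulVec_apply, smul_eq_mul,
    Matrix.mul_diagonal, Matrix.transpose_apply]
  exact Finset.sum_congr rfl fun i _ => by ring

theorem opt_det_lower {E : Type*} [Fintype E] {d : ℕ} (v : E → Fin d → ℝ) (a : E → ℝ)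
    (ha : ∀ e, 0 < a e) (B : Fin d → E) (hB : (Matrix.of fun i => v (B i)).det ≠ 0) :
    (Matrix.of fun i => v (B i)).det ^ 2 * ∏ i, a (B i) ≤ (MA v a).det := by
  classical
  have hBinj : Function.Injective B := by
    intro i j hij
    by_contra hne
    exact hB (Matrix.det_zero_of_row_eq hne (by show v (B i) = v (B j); rw [hij]))
  have hA : (MA v a).PosDef := MA_posDef v a ha ⟨B, hB⟩
  have hA' : (MA (fun i => v (B i)) (fun i => a (B i))).PosDef :=
    MA_posDef _ _ (fun i => ha (B i)) ⟨id, hB⟩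
  have hdet : (MA (fun i => v (B i)) (fun i => a (B i))).det
      = (Matrix.of fun i => v (B i)).det ^ 2 * ∏ i, a (B i) := by
    have h := opt_MA_sq (Matrix.of fun i => v (B i)) (fun i => a (B i))
    have h2 : (MA (fun i => v (B i)) (fun i => a (B i)))
        = MA (fun i => (Matrix.of fun i => v (B i)) i) (fun i => a (B i)) := rfl
    rw [h2, h, Matrix.det_mul, Matrix.det_mul, Matrix.det_transpose, Matrix.det_diagonal]
    ring
  have htr : ((MA v a)⁻¹ * MA (fun i => v (B i)) (fun i => a (B i))).trace ≤ (d : ℝ) := by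
    rw [trace_inv_mul_MA, ← opt_trace_self v a hA]
    have h1 : ∑ i, a (B i) * QF (MA v a) (v (B i))
        = ∑ e ∈ Finset.univ.image B, a e * QF (MA v a) (v e) := by
      rw [Finset.sum_image (fun i _ j _ h => hBinj h)]
    rw [h1]
    exact Finset.sum_le_sum_of_subset_of_nonneg (Finset.subset_univ _)
      (fun e _ _ => mul_nonneg (ha e).le (opt_QF_nonneg hA _))
  have h := det_le_exp (MA v a) _ hA hA'.posSemidef
  rw [hdet] at h
  have hexp : Real.exp (((MA v a)⁻¹ * MA (fun i => v (B i)) (fun i => a (B i))).trace - d) ≤ 1 :=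
    Real.exp_le_one_iff.2 (by linarith)
  calc _ ≤ _ := h
    _ ≤ (MA v a).det * 1 := mul_le_mul_of_nonneg_left hexp hA.det_pos.le
    _ = _ := mul_one _

theorem opt_MA_continuous {X : Type*} [TopologicalSpace X] {E : Type*} [Fintype E] {d : ℕ}
    (v : E → Fin d → ℝ) (w : X → E → ℝ) (hw : ∀ e, Continuous fun x => w x e) :
    Continuous fun x => MA v (w x) := by
  refine continuous_matrix fun i j => ?_
  have : (fun x => MA v (w x) i j) = fun x => ∑ e, w x e * (v e i * v e j) := by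
    funext x
    simp only [MA, Matrix.sum_apply, Matrix.smul_apply, Matrix.vecMulVec_apply, smul_eq_mul]
  rw [this]
  exact continuous_finsetSum _ fun e _ => (hw e).mul continuous_const

theorem opt_lower_bound {ι : Type*} (S : Finset ι) (f : ι → ℝ) :
    ∃ c : ℝ, ∀ B ∈ S, c ≤ f B := by
  classical
  obtain ⟨c, hc⟩ := (S.image f).bddBelow
  exact ⟨c, fun B hB => hc (by simpa using ⟨B, hB, rfl⟩)⟩

theorem opt_coercive {F : Type*} [NormedAddCommGroup F] [NormedSpace ℝ F]
    [FiniteDimensional ℝ F] {ι : Type*} (S : Finset ι) (hS : S.Nonempty) (g : ι → F →ₗ[ℝ] ℝ)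
    (C : Set F) (hC : IsClosed C) (hsmul : ∀ t : ℝ, 0 ≤ t → ∀ x ∈ C, t • x ∈ C)
    (h : ∀ x ∈ C, x ≠ 0 → ∃ B ∈ S, 0 < g B x) :
    ∃ δ : ℝ, 0 < δ ∧ ∀ x ∈ C, ∃ B ∈ S, δ * ‖x‖ ≤ g B x := by
  have hgc : ∀ B, Continuous (g B) := fun B => (g B).continuous_of_finiteDimensional
  have hGc : Continuous fun x => S.sup' hS fun B => g B x :=
    Continuous.finset_sup'_apply hS fun B _ => hgc B
  have hK : IsCompact (C ∩ Metric.sphere (0 : F) 1) :=
    (isCompact_sphere (0 : F) 1).inter_left hC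
  have hnorm : ∀ x ∈ C, x ≠ 0 → ‖x‖⁻¹ • x ∈ C ∩ Metric.sphere (0 : F) 1 := by
    intro x hx hx0
    refine ⟨hsmul _ (by positivity) x hx, ?_⟩
    rw [mem_sphere_zero_iff_norm, norm_smul, norm_inv, norm_norm,
      inv_mul_cancel₀ (norm_ne_zero_iff.2 hx0)]
  obtain ⟨B₀, hB₀⟩ := hS
  rcases (C ∩ Metric.sphere (0 : F) 1).eq_empty_or_nonempty with hemp | hne
  · refine ⟨1, one_pos, fun x hx => ⟨B₀, hB₀, ?_⟩⟩
    have hx0 : x = 0 := by
      by_contra hx0
      have := hnorm x hx hx0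
      rw [hemp] at this
      exact this
    subst hx0
    simp
  · obtain ⟨x₀, hx₀, hmin⟩ := hK.exists_isMinOn hne hGc.continuousOn
    have hx₀0 : x₀ ≠ 0 := by
      intro h
      have := hx₀.2
      rw [h] at this
      simp at this
    refine ⟨S.sup' ⟨B₀, hB₀⟩ fun B => g B x₀, ?_, fun x hx => ?_⟩
    · obtain ⟨B, hB, hlt⟩ := h x₀ hx₀.1 hx₀0
      exact lt_of_lt_of_le hlt (Finset.le_sup' (fun B => g B x₀) hB)
    · by_cases hx0 : x = 0
      · subst hx0
        exact ⟨B₀, hB₀, by simp⟩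
      · have hnx : 0 < ‖x‖ := norm_pos_iff.2 hx0
        have h1 : (S.sup' ⟨B₀, hB₀⟩ fun B => g B x₀)
            ≤ S.sup' ⟨B₀, hB₀⟩ fun B => g B (‖x‖⁻¹ • x) := hmin (hnorm x hx hx0)
        obtain ⟨B, hB, hBe⟩ := Finset.exists_mem_eq_sup' ⟨B₀, hB₀⟩
          (fun B => g B (‖x‖⁻¹ • x))
        refine ⟨B, hB, ?_⟩
        rw [hBe, map_smul, smul_eq_mul] at h1
        calc _ ≤ (‖x‖⁻¹ * g B x) * ‖x‖ := mul_le_mul_of_nonneg_right h1 hnx.le
          _ = g B x := by field_simp

/-- (OPT) the variational lemma. -/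
theorem opt {F : Type*} [NormedAddCommGroup F] [NormedSpace ℝ F] [FiniteDimensional ℝ F]
    {E : Type*} [Fintype E] {d : ℕ} (v : E → Fin d → ℝ) (α : E → F →ₗ[ℝ] ℝ) (L : F →ₗ[ℝ] ℝ)
    (C : Set F) (hC : IsClosed C) (h0 : (0 : F) ∈ C)
    (hadd : ∀ x ∈ C, ∀ y ∈ C, x + y ∈ C)
    (hsmul : ∀ t : ℝ, 0 ≤ t → ∀ x ∈ C, t • x ∈ C)
    (hspan : ∃ B : Fin d → E, (Matrix.of fun i => v (B i)).det ≠ 0)
    (hdual : ∀ x ∈ C, x ≠ 0 → ∃ B : Fin d → E,
      (Matrix.of fun i => v (B i)).det ≠ 0 ∧ ∑ i, α (B i) x < L x) :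
    ∃ a : E → ℝ, (∀ e, 0 < a e) ∧
      ∀ y ∈ C, ∑ e, a e * QF (MA v a) (v e) * α e y ≤ L y := by
  classical
  have hαc : ∀ e, Continuous (α e) := fun e => (α e).continuous_of_finiteDimensional
  have hLc : Continuous L := L.continuous_of_finiteDimensional
  -- weights
  let w : F → E → ℝ := fun x e => Real.exp (-(α e x))
  have hw : ∀ x e, 0 < w x e := fun x e => Real.exp_pos _
  have hA : ∀ x, (MA v (w x)).PosDef := fun x => MA_posDef v (w x) (hw x) hspan
  have hdetpos : ∀ x, 0 < (MA v (w x)).det := fun x => (hA x).det_pos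
  let Φ : F → ℝ := fun x => Real.log (MA v (w x)).det + L x
  have hMAc : Continuous fun x => MA v (w x) :=
    opt_MA_continuous v w fun e => Real.continuous_exp.comp (hαc e).neg
  have hΦc : Continuous Φ :=
    ((hMAc.matrix_det).log (fun x => (hdetpos x).ne')).add hLc
  -- the finite set of bases
  obtain ⟨S, hSmem⟩ : ∃ S : Finset (Fin d → E),
      ∀ B, B ∈ S ↔ (Matrix.of fun i => v (B i)).det ≠ 0 :=
    ⟨Finset.univ.filter fun B => (Matrix.of fun i => v (B i)).det ≠ 0, fun B => by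
      rw [Finset.mem_filter]; exact ⟨fun h => h.2, fun h => ⟨Finset.mem_univ _, h⟩⟩⟩
  have hS : S.Nonempty := by
    obtain ⟨B, hB⟩ := hspan
    exact ⟨B, (hSmem B).2 hB⟩
  have hlow : ∀ x, ∀ B ∈ S, Real.log ((Matrix.of fun i => v (B i)).det ^ 2)
      + (L x - ∑ i, α (B i) x) ≤ Φ x := by
    intro x B hB
    have hB' : (Matrix.of fun i => v (B i)).det ≠ 0 := (hSmem B).1 hB
    have h := opt_det_lower v (w x) (hw x) B hB'
    have hp : ∏ i, w x (B i) = Real.exp (-∑ i, α (B i) x) := by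
      rw [← Finset.sum_neg_distrib, Real.exp_sum]
    rw [hp] at h
    have h2 : Real.log ((Matrix.of fun i => v (B i)).det ^ 2 * Real.exp (-∑ i, α (B i) x))
        ≤ Real.log (MA v (w x)).det :=
      Real.log_le_log (mul_pos (by positivity) (Real.exp_pos _)) h
    rw [Real.log_mul (pow_ne_zero 2 hB') (Real.exp_pos _).ne', Real.log_exp] at h2
    have : Φ x = Real.log (MA v (w x)).det + L x := rfl
    rw [this]
    linarith
  -- coercivity
  obtain ⟨δ, hδ, hGδ⟩ := opt_coercive S hS (fun B => L - ∑ i, α (B i)) C hC hsmul (by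
    intro x hx hx0
    obtain ⟨B, hB, hlt⟩ := hdual x hx hx0
    refine ⟨B, (hSmem B).2 hB, ?_⟩
    simp only [LinearMap.sub_apply, LinearMap.sum_apply]
    linarith)
  -- lower bound for Φ
  obtain ⟨c₀, hc₀⟩ : ∃ c₀ : ℝ, ∀ B ∈ S, c₀ ≤ Real.log ((Matrix.of fun i => v (B i)).det ^ 2) :=
    opt_lower_bound S fun B => Real.log ((Matrix.of fun i => v (B i)).det ^ 2)
  have hΦlow : ∀ x ∈ C, c₀ + δ * ‖x‖ ≤ Φ x := by
    intro x hx
    obtain ⟨B, hB, hGB⟩ := hGδ x hx
    have h1 := hlow x B hB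
    have h2 := hc₀ B hB
    simp only [LinearMap.sub_apply, LinearMap.sum_apply] at hGB
    linarith
  -- a minimizer
  obtain ⟨z, hzC, hzmin⟩ : ∃ z ∈ C, ∀ x ∈ C, Φ z ≤ Φ x := by
    let R : ℝ := (Φ 0 - c₀) / δ
    have hKc : IsCompact (C ∩ Metric.closedBall (0 : F) R) :=
      (isCompact_closedBall (0 : F) R).inter_left hC
    have hR : 0 ≤ R := by
      have := hΦlow 0 h0
      rw [norm_zero, mul_zero, add_zero] at this
      exact div_nonneg (by linarith) hδ.le
    have h0K : (0 : F) ∈ C ∩ Metric.closedBall (0 : F) R :=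
      ⟨h0, Metric.mem_closedBall_self hR⟩
    obtain ⟨z, hz, hmin⟩ := hKc.exists_isMinOn ⟨0, h0K⟩ hΦc.continuousOn
    refine ⟨z, hz.1, fun x hx => ?_⟩
    by_cases hxR : ‖x‖ ≤ R
    · exact hmin ⟨hx, by simpa using hxR⟩
    · have h1 : Φ z ≤ Φ 0 := hmin h0K
      have h2 := hΦlow x hx
      have h3 : Φ 0 - c₀ < δ * ‖x‖ := by
        have := not_le.1 hxR
        have h4 : (Φ 0 - c₀) / δ < ‖x‖ := this
        rw [div_lt_iff₀ hδ] at h4
        linarith
      linarith
  -- the first variation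
  refine ⟨w z, hw z, fun y hy => ?_⟩
  set b : E → ℝ := fun e => w z e * QF (MA v (w z)) (v e) with hb
  have hbsum : ∑ e, b e = (d : ℝ) := opt_trace_self v (w z) (hA z)
  have hkey : ∀ t : ℝ, 0 < t → 0 ≤ t * L y + ∑ e, b e * (Real.exp (-(t * α e y)) - 1) := by
    intro t ht
    have hmem : z + t • y ∈ C := hadd z hzC _ (hsmul t ht.le y hy)
    have h1 := hzmin _ hmem
    have h2 := det_le_exp (MA v (w z)) (MA v (w (z + t • y))) (hA z) (hA _).posSemidef
    have h3 : ((MA v (w z))⁻¹ * MA v (w (z + t • y))).trace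
        = ∑ e, b e * Real.exp (-(t * α e y)) := by
      rw [trace_inv_mul_MA]
      refine Finset.sum_congr rfl fun e _ => ?_
      have : w (z + t • y) e = w z e * Real.exp (-(t * α e y)) := by
        simp only [w]
        rw [← Real.exp_add]
        congr 1
        simp only [map_add, map_smul, smul_eq_mul]
        ring
      rw [this, hb]
      ring
    have h4 : Real.log (MA v (w (z + t • y))).det
        ≤ Real.log (MA v (w z)).det + (∑ e, b e * Real.exp (-(t * α e y)) - d) := by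
      have := Real.log_le_log (hdetpos _) h2
      rw [Real.log_mul (hdetpos z).ne' (Real.exp_pos _).ne', Real.log_exp, h3] at this
      exact this
    have h5 : ∑ e, b e * (Real.exp (-(t * α e y)) - 1)
        = ∑ e, b e * Real.exp (-(t * α e y)) - d := by
      rw [← hbsum, ← Finset.sum_sub_distrib]
      exact Finset.sum_congr rfl fun e _ => by ring
    have h6 : Φ z = Real.log (MA v (w z)).det + L z := rfl
    have h7 : Φ (z + t • y) = Real.log (MA v (w (z + t • y))).det + (L z + t * L y) := by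
      simp only [Φ, map_add, map_smul, smul_eq_mul]
    rw [h6, h7] at h1
    rw [h5]
    linarith
  -- derivative at 0
  let f : ℝ → ℝ := fun t => t * L y + ∑ e, b e * (Real.exp (-(t * α e y)) - 1)
  have hf0 : f 0 = 0 := by simp [f]
  have hderiv : HasDerivAt f (L y + ∑ e, b e * (-(α e y))) 0 := by
    have h1 : HasDerivAt (fun t : ℝ => t * L y) (L y) 0 := by
      simpa using (hasDerivAt_id (0 : ℝ)).mul_const (L y)
    have h2 : ∀ e, HasDerivAt (fun t : ℝ => b e * (Real.exp (-(t * α e y)) - 1))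
        (b e * (-(α e y))) 0 := by
      intro e
      have h3 : HasDerivAt (fun t : ℝ => -(t * α e y)) (-(α e y)) 0 := by
        simpa using ((hasDerivAt_id (0 : ℝ)).mul_const (α e y)).fun_neg
      have h4 := (h3.exp.sub_const 1).const_mul (b e)
      simpa using h4
    exact h1.add (HasDerivAt.fun_sum fun e _ => h2 e)
  have hge : 0 ≤ L y + ∑ e, b e * (-(α e y)) := by
    have hs := hderiv.tendsto_slope
    have hs2 : Filter.Tendsto (slope f 0) (nhdsWithin 0 (Set.Ioi 0))
        (nhds (L y + ∑ e, b e * (-(α e y)))) :=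
      hs.mono_left (nhdsWithin_mono _ (fun t (ht : 0 < t) => ne_of_gt ht))
    refine ge_of_tendsto hs2 ?_
    filter_upwards [self_mem_nhdsWithin] with t ht
    have ht' : 0 < t := ht
    rw [slope_def_field, hf0, sub_zero, sub_zero]
    exact div_nonneg (hkey t ht') ht'.le
  have hfin : ∑ e, b e * (-(α e y)) = -∑ e, b e * α e y := by
    rw [← Finset.sum_neg_distrib]
    exact Finset.sum_congr rfl fun e _ => by ring
  rw [hfin] at hge
  show ∑ e, b e * α e y ≤ L y
  linarith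

end MP81308f
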